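import Pool.Agent.Helper83_S1S3.Defs

/-!
# Elementary geometry of the pieces
-/

set_option autoImplicit false
set_option linter.unusedSectionVars false

open scoped Manifold ContDiff Topology
open Set

noncomputable section

namespace Pool.Agent.S1S3

variable {k m : ℕ}

theorem rot_apply_zero (z : ℂ) (x : Eu (k + 2)) : rot z x 0 = z.re * x 0 - z.im * x 1 := by
  simp [rot]

theorem rot_apply_one (z : ℂ) (x : Eu (k + 2)) : rot z x 1 = z.im * x 0 + z.re * x 1 := by
  simp [rot]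

theorem rot_apply_ge (z : ℂ) (x : Eu (k + 2)) (i : Fin k) :
    rot z x i.succ.succ = x i.succ.succ := by
  have h0 : (i.succ.succ : Fin (k + 2)) ≠ 0 := Fin.succ_ne_zero _
  have h1 : (i.succ.succ : Fin (k + 2)) ≠ 1 := by
    intro h
    have := congrArg Fin.val h
    simp at this
  simp [rot, h0, h1]

theorem eu_ext {x y : Eu (k + 2)} (h0 : x 0 = y 0) (h1 : x 1 = y 1)
    (h : ∀ i : Fin k, x i.succ.succ = y i.succ.succ) : x = y := by
  ext i
  refine Fin.cases h0 (fun i => ?_) i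
  refine Fin.cases h1 (fun i => h i) i

theorem rot_one (x : Eu (k + 2)) : rot 1 x = x := by
  apply eu_ext
  · simp [rot_apply_zero]
  · simp [rot_apply_one]
  · intro i
    rw [rot_apply_ge]

theorem rot_mul (z w : ℂ) (x : Eu (k + 2)) : rot (z * w) x = rot z (rot w x) := by
  apply eu_ext
  · simp only [rot_apply_zero, rot_apply_one, Complex.mul_re, Complex.mul_im]
    ring
  · simp only [rot_apply_zero, rot_apply_one, Complex.mul_re, Complex.mul_im]
    ring
  · intro i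
    rw [rot_apply_ge, rot_apply_ge, rot_apply_ge]

theorem rot_add (z : ℂ) (x y : Eu (k + 2)) : rot z (x + y) = rot z x + rot z y := by
  apply eu_ext
  · simp only [rot_apply_zero, PiLp.add_apply]
    ring
  · simp only [rot_apply_one, PiLp.add_apply]
    ring
  · intro i
    simp only [rot_apply_ge, PiLp.add_apply]

theorem rot_smul (z : ℂ) (c : ℝ) (x : Eu (k + 2)) : rot z (c • x) = c • rot z x := by
  apply eu_ext
  · simp only [rot_apply_zero, PiLp.smul_apply, smul_eq_mul]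
    ring
  · simp only [rot_apply_one, PiLp.smul_apply, smul_eq_mul]
    ring
  · intro i
    simp only [rot_apply_ge, PiLp.smul_apply, smul_eq_mul]

theorem norm_sq_eq (x : Eu (k + 2)) :
    ‖x‖ ^ 2 = x 0 ^ 2 + x 1 ^ 2 + ∑ i : Fin k, x i.succ.succ ^ 2 := by
  rw [EuclideanSpace.norm_sq_eq, Fin.sum_univ_succ, Fin.sum_univ_succ]
  simp only [Real.norm_eq_abs, sq_abs]
  rw [← add_assoc]
  rfl

theorem norm_rot {z : ℂ} (hz : ‖z‖ = 1) (x : Eu (k + 2)) : ‖rot z x‖ = ‖x‖ := by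
  have h : ‖rot z x‖ ^ 2 = ‖x‖ ^ 2 := by
    rw [norm_sq_eq, norm_sq_eq, rot_apply_zero, rot_apply_one]
    simp only [rot_apply_ge]
    have hz2 : z.re ^ 2 + z.im ^ 2 = 1 := by
      have := Complex.sq_norm z
      rw [hz, Complex.normSq_apply] at this
      nlinarith
    have : (z.re * x 0 - z.im * x 1) ^ 2 + (z.im * x 0 + z.re * x 1) ^ 2 =
        (z.re ^ 2 + z.im ^ 2) * (x 0 ^ 2 + x 1 ^ 2) := by ring
    rw [this, hz2, one_mul]
  exact (pow_left_inj₀ (norm_nonneg _) (norm_nonneg _) two_ne_zero).1 h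

theorem norm_rot_circle (ζ : Circle) (x : Eu (k + 2)) : ‖rot (ζ : ℂ) x‖ = ‖x‖ :=
  norm_rot (Circle.norm_coe ζ) x

theorem rot_inv_rot (ζ : Circle) (x : Eu (k + 2)) :
    rot ((ζ⁻¹ : Circle) : ℂ) (rot (ζ : ℂ) x) = x := by
  rw [← rot_mul, ← Circle.coe_mul, inv_mul_cancel, Circle.coe_one, rot_one]

theorem rot_rot_inv (ζ : Circle) (x : Eu (k + 2)) :
    rot (ζ : ℂ) (rot ((ζ⁻¹ : Circle) : ℂ) x) = x := by
  rw [← rot_mul, ← Circle.coe_mul, mul_inv_cancel, Circle.coe_one, rot_one]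

theorem continuous_rot : Continuous fun q : ℂ × Eu (k + 2) => rot q.1 q.2 := by
  unfold rot
  refine (PiLp.continuous_toLp 2 _).comp (continuous_pi fun i => ?_)
  split_ifs <;> fun_prop

@[fun_prop]
theorem Continuous.rot {X : Type*} [TopologicalSpace X] {f : X → ℂ} {g : X → Eu (k + 2)}
    (hf : Continuous f) (hg : Continuous g) : Continuous fun x => rot (f x) (g x) :=
  continuous_rot.comp (hf.prodMk hg)

theorem sg_zero (b : Eu k) : sg b 0 = Real.sqrt (1 - ‖b‖ ^ 2) := rfl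

theorem sg_succ (b : Eu k) (i : Fin k) : sg b i.succ = b i := rfl

theorem norm_sg {b : Eu k} (hb : ‖b‖ ≤ 1) : ‖sg b‖ = 1 := by
  have h : ‖sg b‖ ^ 2 = 1 := by
    rw [EuclideanSpace.norm_sq_eq, Fin.sum_univ_succ]
    simp only [Real.norm_eq_abs, sq_abs, sg_zero, sg_succ]
    rw [Real.sq_sqrt (by nlinarith [norm_nonneg b])]
    have := EuclideanSpace.norm_sq_eq b
    simp only [Real.norm_eq_abs, sq_abs] at this
    rw [← this]
    ring
  have h2 : (‖sg b‖ - 1) * (‖sg b‖ + 1) = 0 := by nlinarith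
  rcases mul_eq_zero.1 h2 with h3 | h3
  · linarith
  · nlinarith [norm_nonneg (sg b)]

@[fun_prop]
theorem continuous_sg : Continuous (sg : Eu k → Eu (k + 1)) := by
  unfold sg
  refine (PiLp.continuous_toLp 2 _).comp (continuous_pi fun i => ?_)
  refine Fin.cases ?_ (fun i => ?_) i
  · simp only [Fin.cons_zero]
    fun_prop
  · simp only [Fin.cons_succ]
    fun_prop

theorem norm_tubeV {b : Eu (m + 2)} (hb : ‖b‖ ≤ 1) (ζ : Circle) : ‖tubeV ζ b‖ = 1 := by
  unfold tubeV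
  rw [norm_rot_circle, norm_sg hb]

theorem norm_core (ζ : Circle) : ‖(core ζ : Eu (m + 3))‖ = 1 := by
  unfold core
  rw [norm_rot_circle]
  simp

@[fun_prop]
theorem continuous_tubeV : Continuous fun q : Circle × Eu (m + 2) => tubeV q.1 q.2 := by
  unfold tubeV
  fun_prop

theorem cont_tubeV {X : Type*} [TopologicalSpace X] {f : X → Circle} {g : X → Eu (m + 2)}
    (hf : Continuous f) (hg : Continuous g) : Continuous fun x => tubeV (f x) (g x) := by
  unfold tubeV
  apply Continuous.rot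
  · exact continuous_subtype_val.comp hf
  · exact continuous_sg.comp hg

@[fun_prop]
theorem continuous_core : Continuous fun ζ : Circle => (core ζ : Eu (m + 3)) := by
  unfold core
  fun_prop

/-- the sphere point of the tube -/
def tubeS (ζ : Circle) (b : Eu (m + 2)) (hb : ‖b‖ ≤ 1) : Sn (m + 2) :=
  ⟨tubeV ζ b, by rw [mem_sphere_zero_iff_norm]; exact norm_tubeV hb ζ⟩

/-- the closed curve as a point of the sphere -/
def coreS (ζ : Circle) : Sn (m + 2) :=
  ⟨core ζ, by rw [mem_sphere_zero_iff_norm]; exact norm_core ζ⟩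

theorem isClosed_compl_pieceSet (p m : ℕ) : IsClosed (pieceSet p m)ᶜ := by
  have h : (pieceSet p m)ᶜ = range fun ζ : Circle => ((ζ ^ p, coreS ζ) : Circle × Sn (m + 2)) := by
    ext q
    simp only [pieceSet, mem_compl_iff, mem_ofPred_eq, not_forall, not_not, mem_range, exists_prop]
    constructor
    · rintro ⟨ζ, h1, h2⟩
      exact ⟨ζ, Prod.ext h1 (Subtype.ext h2.symm)⟩
    · rintro ⟨ζ, rfl⟩
      exact ⟨ζ, rfl, rfl⟩
  rw [h]
  apply IsCompact.isClosed
  apply isCompact_range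
  refine (continuous_pow p).prodMk ?_
  exact Continuous.subtype_mk (by fun_prop) _

theorem isOpen_pieceSet (p m : ℕ) : IsOpen (pieceSet p m) := by
  have := (isClosed_compl_pieceSet p m).isOpen_compl
  rwa [compl_compl] at this

/-- the piece `S¹ × S^(m+2)` minus a closed curve winding `p` times, an open submanifold of
`S¹ × S^(m+2)` -/
def pieceO (p m : ℕ) : TopologicalSpace.Opens (Circle × Sn (m + 2)) :=
  ⟨pieceSet p m, isOpen_pieceSet p m⟩

/-- the piece as a type -/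
abbrev Piece (p m : ℕ) : Type := ↥(pieceO p m)

/-- the sphere minus `p` points -/
abbrev Punc (p m : ℕ) : Type :=
  {x : Sn (m + 2) // ∀ ζ : Circle, ζ ^ p = 1 → (x : Eu (m + 3)) ≠ core ζ}

/-- the neck: a punctured tube -/
abbrev Neck (m : ℕ) : Type := {q : Circle × Eu (m + 2) // 0 < ‖q.2‖ ∧ ‖q.2‖ < 1 / 2}

/-- if a point of the tube around `ζ` of radius `1/2` lies on the core over the same point of the
circle then it is the centre -/
theorem tubeV_ne_core {p : ℕ} (hp : p = 2 ∨ p = 3) {ζ ζ' : Circle} (h : ζ' ^ p = ζ ^ p)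
    {b : Eu (m + 2)} (h0 : b ≠ 0) (hb : ‖b‖ < 1 / 2) : tubeV ζ b ≠ (core ζ' : Eu (m + 3)) := by
  intro he
  set u : Circle := ζ⁻¹ * ζ' with hu
  have hup : u ^ p = 1 := by
    rw [hu, mul_pow, h, ← mul_pow, inv_mul_cancel, one_pow]
  have h1 : sg b = rot (u : ℂ) (EuclideanSpace.single 0 1 : Eu (m + 3)) := by
    have := congrArg (rot ((ζ⁻¹ : Circle) : ℂ)) he
    unfold tubeV core at this
    rw [rot_inv_rot, ← rot_mul, ← Circle.coe_mul] at this
    exact this
  have hre : Real.sqrt (1 - ‖b‖ ^ 2) = (u : ℂ).re := by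
    have := congrArg (fun x : Eu (m + 3) => x 0) h1
    simpa [rot_apply_zero, sg_zero] using this
  have hgt : (0 : ℝ) < (u : ℂ).re := by
    rw [← hre]
    apply Real.sqrt_pos.2
    nlinarith [norm_nonneg b]
  have hnorm : (u : ℂ).re ^ 2 + (u : ℂ).im ^ 2 = 1 := by
    have := Complex.sq_norm (u : ℂ)
    rw [Circle.norm_coe, Complex.normSq_apply] at this
    nlinarith
  have him : (u : ℂ).im = 0 := by
    rcases hp with rfl | rfl
    · have h2 : (u : ℂ) ^ 2 = 1 := by
        rw [← Circle.coe_pow, hup, Circle.coe_one]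
      have h3 := congrArg Complex.im h2
      simp only [pow_two, Complex.mul_im, Complex.one_im] at h3
      nlinarith
    · have h2 : (u : ℂ) ^ 3 = 1 := by
        rw [← Circle.coe_pow, hup, Circle.coe_one]
      have h3 := congrArg Complex.im h2
      have h4 : (u : ℂ).im * (3 * (u : ℂ).re ^ 2 - (u : ℂ).im ^ 2) = 0 := by
        simp only [pow_succ, pow_zero, one_mul, Complex.mul_im, Complex.mul_re,
          Complex.one_im] at h3
        linarith
      rcases mul_eq_zero.1 h4 with h5 | h5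
      · exact h5
      · exfalso
        have h6 : (u : ℂ).re ^ 2 = 1 / 4 := by nlinarith
        have h7 : (Real.sqrt (1 - ‖b‖ ^ 2)) ^ 2 = 1 - ‖b‖ ^ 2 :=
          Real.sq_sqrt (by nlinarith [norm_nonneg b])
        rw [hre, h6] at h7
        nlinarith [norm_nonneg b]
  have hre1 : (u : ℂ).re = 1 := by nlinarith
  have hb0 : ‖b‖ = 0 := by
    have h7 : (Real.sqrt (1 - ‖b‖ ^ 2)) ^ 2 = 1 - ‖b‖ ^ 2 :=
      Real.sq_sqrt (by nlinarith [norm_nonneg b])
    rw [hre, hre1] at h7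
    nlinarith [norm_nonneg b]
  exact h0 (norm_eq_zero.1 hb0)

/-- the inclusion of the neck into the piece -/
def neckMap (p m : ℕ) (hp : p = 2 ∨ p = 3) : C(Neck m, Piece p m) where
  toFun q := ⟨(q.1.1 ^ p, tubeS q.1.1 q.1.2 (by linarith [q.2.2])), by
    intro ζ hζ
    exact tubeV_ne_core hp hζ (norm_pos_iff.1 q.2.1) q.2.2⟩
  continuous_toFun := by
    refine Continuous.subtype_mk (Continuous.prodMk (by fun_prop) ?_) _
    exact Continuous.subtype_mk (by fun_prop) _

theorem norm_tw {b : Eu (m + 2)} (h0 : 0 < ‖b‖) (hb : ‖b‖ < 1 / 2) (ζ : Circle) :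
    ‖tw ζ b‖ = 1 / 2 - ‖b‖ := by
  unfold tw
  rw [norm_smul, norm_rot_circle, Real.norm_eq_abs, abs_of_nonneg
    (div_nonneg (by linarith) h0.le)]
  field_simp

/-- the inverse of the gluing map `tw` -/
def twInv {m : ℕ} (ζ : Circle) (b : Eu (m + 2)) : Eu (m + 2) :=
  ((1 / 2 - ‖b‖) / ‖b‖) • rot ((ζ⁻¹ : Circle) : ℂ) b

theorem norm_twInv {b : Eu (m + 2)} (h0 : 0 < ‖b‖) (hb : ‖b‖ < 1 / 2) (ζ : Circle) :
    ‖twInv ζ b‖ = 1 / 2 - ‖b‖ := by
  unfold twInv
  rw [norm_smul, norm_rot_circle, Real.norm_eq_abs, abs_of_nonneg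
    (div_nonneg (by linarith) h0.le)]
  field_simp

theorem twInv_tw {b : Eu (m + 2)} (h0 : 0 < ‖b‖) (hb : ‖b‖ < 1 / 2) (ζ : Circle) :
    twInv ζ (tw ζ b) = b := by
  have h := norm_tw h0 hb ζ
  unfold twInv
  rw [h]
  unfold tw
  rw [rot_smul, rot_inv_rot, smul_smul]
  have h1 : (1 / 2 - (1 / 2 - ‖b‖)) / (1 / 2 - ‖b‖) * ((1 / 2 - ‖b‖) / ‖b‖) = 1 := by
    have : (1 / 2 - ‖b‖) ≠ 0 := by linarith
    rw [sub_sub_cancel, div_mul_div_cancel₀ this, div_self h0.ne']
  rw [h1, one_smul]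

theorem tw_twInv {b : Eu (m + 2)} (h0 : 0 < ‖b‖) (hb : ‖b‖ < 1 / 2) (ζ : Circle) :
    tw ζ (twInv ζ b) = b := by
  have h := norm_twInv h0 hb ζ
  unfold tw
  rw [h]
  unfold twInv
  rw [rot_smul, rot_rot_inv, smul_smul]
  have h1 : (1 / 2 - (1 / 2 - ‖b‖)) / (1 / 2 - ‖b‖) * ((1 / 2 - ‖b‖) / ‖b‖) = 1 := by
    have : (1 / 2 - ‖b‖) ≠ 0 := by linarith
    rw [sub_sub_cancel, div_mul_div_cancel₀ this, div_self h0.ne']
  rw [h1, one_smul]

/-- the gluing homeomorphism of the neck -/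
def twN (m : ℕ) : Neck m ≃ₜ Neck m where
  toFun q := ⟨(q.1.1, tw q.1.1 q.1.2), by
    rw [norm_tw q.2.1 q.2.2]
    constructor <;> linarith [q.2.1, q.2.2]⟩
  invFun q := ⟨(q.1.1, twInv q.1.1 q.1.2), by
    rw [norm_twInv q.2.1 q.2.2]
    constructor <;> linarith [q.2.1, q.2.2]⟩
  left_inv q := Subtype.ext (Prod.ext rfl (twInv_tw q.2.1 q.2.2 _))
  right_inv q := Subtype.ext (Prod.ext rfl (tw_twInv q.2.1 q.2.2 _))
  continuous_toFun := by
    refine Continuous.subtype_mk (Continuous.prodMk (by fun_prop) ?_) _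
    unfold tw
    have : ∀ q : Neck m, ‖q.1.2‖ ≠ 0 := fun q => q.2.1.ne'
    fun_prop (disch := assumption)
  continuous_invFun := by
    refine Continuous.subtype_mk (Continuous.prodMk (by fun_prop) ?_) _
    unfold twInv
    have : ∀ q : Neck m, ‖q.1.2‖ ≠ 0 := fun q => q.2.1.ne'
    fun_prop (disch := assumption)

/-! ### the glued spaces -/

/-- `Z` is the union of the two pieces `S¹ × S^(m+2) - γ₂` and `S¹ × S^(m+2) - γ₃`, glued along
the necks by `(ζ, b) ↦ (ζ, tw ζ b)` -/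
structure Glued (m : ℕ) (Z : Type) [TopologicalSpace Z] where
  /-- the first piece -/
  j₂ : Piece 2 m → Z
  /-- the second piece -/
  j₃ : Piece 3 m → Z
  emb₂ : Topology.IsOpenEmbedding j₂
  emb₃ : Topology.IsOpenEmbedding j₃
  cover : range j₂ ∪ range j₃ = univ
  glue : ∀ a b, j₂ a = j₃ b ↔
    ∃ q : Neck m, a = neckMap 2 m (Or.inl rfl) q ∧ b = neckMap 3 m (Or.inr rfl) (twN m q)

end Pool.Agent.S1S3
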