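import Pool.Agent.Helper83_S1S3.Hom
import Pool.Agent.Helper83_S1S3.Geo

/-!
# Module statements for the squad MP_8e71ea_gt
-/

set_option autoImplicit false
set_option linter.unusedSectionVars false

open scoped Manifold ContDiff Topology
open CategoryTheory Set

noncomputable section

namespace Pool.Agent.S1S3

/-! ### maps between the pieces -/

theorem continuous_small (m : ℕ) : Continuous fun u : Sn (m + 1) =>
    (tubeV (1 : Circle) ((1 / 4 : ℝ) • (u : Eu (m + 2))) : Eu (m + 3)) := by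
  apply cont_tubeV
  · exact continuous_const
  · fun_prop

theorem norm_small {m : ℕ} (u : Sn (m + 1)) : ‖(1 / 4 : ℝ) • (u : Eu (m + 2))‖ = 1 / 4 := by
  rw [norm_smul, norm_eq_of_mem_sphere]
  norm_num

theorem small_ne {m : ℕ} (u : Sn (m + 1)) : (1 / 4 : ℝ) • (u : Eu (m + 2)) ≠ 0 := by
  intro h
  have h1 := norm_small u
  rw [h, norm_zero] at h1
  norm_num at h1

/-- the small sphere around the puncture `e₀` -/
def smallP (p m : ℕ) (hp : p = 2 ∨ p = 3) : C(Sn (m + 1), Punc p m) where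
  toFun u := ⟨tubeS 1 ((1 / 4 : ℝ) • (u : Eu (m + 2))) (by rw [norm_small]; norm_num),
    fun ζ hζ => tubeV_ne_core hp (by rw [hζ, one_pow]) (small_ne u)
      (by rw [norm_small]; norm_num)⟩
  continuous_toFun :=
    Continuous.subtype_mk (Continuous.subtype_mk (continuous_small m) _) _

/-- rotation of the punctured sphere by a `p`-th root of unity -/
def rotP (p m : ℕ) (om : Circle) (hom : om ^ p = 1) : Punc p m ≃ₜ Punc p m where
  toFun x := ⟨⟨rot (om : ℂ) (x.1 : Eu (m + 3)), by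
      rw [mem_sphere_zero_iff_norm, norm_rot_circle, norm_eq_of_mem_sphere]⟩, by
    intro ζ hζ h
    refine x.2 (om⁻¹ * ζ) (by rw [mul_pow, inv_pow, hom, hζ]; simp) ?_
    have h2 := congrArg (rot ((om⁻¹ : Circle) : ℂ)) h
    simp only at h2
    rw [rot_inv_rot] at h2
    rw [h2]
    unfold core
    rw [← rot_mul, ← Circle.coe_mul]⟩
  invFun x := ⟨⟨rot ((om⁻¹ : Circle) : ℂ) (x.1 : Eu (m + 3)), by
      rw [mem_sphere_zero_iff_norm, norm_rot_circle, norm_eq_of_mem_sphere]⟩, by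
    intro ζ hζ h
    refine x.2 (om * ζ) (by rw [mul_pow, hom, hζ]; simp) ?_
    have h2 := congrArg (rot (om : ℂ)) h
    simp only at h2
    rw [rot_rot_inv] at h2
    rw [h2]
    unfold core
    rw [← rot_mul, ← Circle.coe_mul]⟩
  left_inv x := Subtype.ext (Subtype.ext (rot_inv_rot _ _))
  right_inv x := Subtype.ext (Subtype.ext (rot_rot_inv _ _))
  continuous_toFun := by
    refine Continuous.subtype_mk (Continuous.subtype_mk ?_ _) _
    fun_prop
  continuous_invFun := by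
    refine Continuous.subtype_mk (Continuous.subtype_mk ?_ _) _
    fun_prop

/-- the root of unity `exp(2 π i j / p)` -/
def rootU (p j : ℕ) : Circle := Circle.exp (2 * Real.pi * (j / p))

theorem rootU_pow (p j : ℕ) (hp : p ≠ 0) : rootU p j ^ p = 1 := by
  unfold rootU
  rw [← Circle.exp_nsmul, nsmul_eq_mul]
  have h : (p : ℝ) * (2 * Real.pi * (j / p)) = j * (2 * Real.pi) := by
    have : (p : ℝ) ≠ 0 := Nat.cast_ne_zero.2 hp
    field_simp
  rw [h, ← nsmul_eq_mul, Circle.exp_nsmul, Circle.exp_two_pi, one_pow]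

/-- the projection of the piece to the circle -/
def prPiece (p m : ℕ) : C(Piece p m, Circle) := ⟨fun q => q.1.1, by fun_prop⟩

/-- the projection of the neck to the circle -/
def prNeck (m : ℕ) : C(Neck m, Circle) := ⟨fun q => q.1.1, by fun_prop⟩

/-- the small sphere in the neck -/
def smallN (m : ℕ) : C(Sn (m + 1), Neck m) where
  toFun u := ⟨(1, (1 / 4 : ℝ) • (u : Eu (m + 2))), by
    rw [norm_small]; constructor <;> norm_num⟩
  continuous_toFun := by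
    refine Continuous.subtype_mk ?_ _
    fun_prop

/-! ### module statements: homology of the pieces -/

/-- module PUNCT: homology of the sphere minus `p` points, `p = 2, 3` -/
structure PunctStatement : Prop where
  pathConnected : ∀ p m : ℕ, (p = 2 ∨ p = 3) → PathConnectedSpace (Punc p m)
  zero : ∀ p m : ℕ, (p = 2 ∨ p = 3) → ∀ i, i ≠ 0 → i ≠ m + 1 → Subsingleton (HH i (Punc p m))
  gen : ∀ (p m : ℕ) (hp : p = 2 ∨ p = 3) (g₀ : HH (m + 1) (Sn (m + 1))),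
    (∀ x : HH (m + 1) (Sn (m + 1)), ∃ a : ℤ, x = a • g₀) →
    ∀ x : HH (m + 1) (Punc p m), ∃ a : Fin p → ℤ,
      x = ∑ j : Fin p, a j • Hm (m + 1)
        (rotP p m (rootU p j) (rootU_pow p j (by omega)) : C(Punc p m, Punc p m))
        (Hm (m + 1) (smallP p m hp) g₀)
  rel : ∀ (p m : ℕ) (hp : p = 2 ∨ p = 3) (g₀ : HH (m + 1) (Sn (m + 1))),
    (∀ x : HH (m + 1) (Sn (m + 1)), ∃ a : ℤ, x = a • g₀) →
    ∀ a : Fin p → ℤ, (∑ j : Fin p, a j • Hm (m + 1)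
        (rotP p m (rootU p j) (rootU_pow p j (by omega)) : C(Punc p m, Punc p m))
        (Hm (m + 1) (smallP p m hp) g₀)) = 0 ↔ ∀ i j, a i = a j

/-- module PIECE: homology of the pieces -/
structure PieceStatement : Prop where
  pathConnected : ∀ p m : ℕ, (p = 2 ∨ p = 3) → PathConnectedSpace (Piece p m)
  zero₀ : ∀ p : ℕ, (p = 2 ∨ p = 3) → ∀ i, 2 ≤ i → Subsingleton (HH i (Piece p 0))
  zero₁ : ∀ p : ℕ, (p = 2 ∨ p = 3) → ∀ i, 3 ≤ i → Subsingleton (HH i (Piece p 1))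
  proj : ∀ p : ℕ, (p = 2 ∨ p = 3) → Function.Bijective (Hm 1 (prPiece p 1))
  gen : ∀ (p : ℕ) (hp : p = 2 ∨ p = 3) (g₀ : HH 2 (Sn 2)), (∀ x : HH 2 (Sn 2), ∃ a : ℤ, x = a • g₀) →
    ∀ x : HH 2 (Piece p 1), ∃ a : ℤ, x = a • Hm 2 ((neckMap p 1 hp).comp (smallN 1)) g₀
  rel : ∀ (p : ℕ) (hp : p = 2 ∨ p = 3) (g₀ : HH 2 (Sn 2)), (∀ x : HH 2 (Sn 2), ∃ a : ℤ, x = a • g₀) →
    ∀ a : ℤ, a • Hm 2 ((neckMap p 1 hp).comp (smallN 1)) g₀ = 0 ↔ (p : ℤ) ∣ a

/-- module NECK: homology of the necks -/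
structure NeckStatement : Prop where
  pathConnected : ∀ m : ℕ, PathConnectedSpace (Neck m)
  two₀ : Nonempty (HH 2 (Neck 0) ≃+ ℤ)
  zero₀ : ∀ i, 3 ≤ i → Subsingleton (HH i (Neck 0))
  proj : Function.Bijective (Hm 1 (prNeck 1))
  gen : ∀ g₀ : HH 2 (Sn 2), (∀ x : HH 2 (Sn 2), ∃ a : ℤ, x = a • g₀) →
    ∀ x : HH 2 (Neck 1), ∃ a : ℤ, x = a • Hm 2 (smallN 1) g₀
  free : ∀ g₀ : HH 2 (Sn 2), (∀ x : HH 2 (Sn 2), ∃ a : ℤ, x = a • g₀) →
    ∀ a : ℤ, a • Hm 2 (smallN 1) g₀ = 0 → a = 0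
  three : Nonempty (HH 3 (Neck 1) ≃+ ℤ)
  zero₁ : ∀ i, 4 ≤ i → Subsingleton (HH i (Neck 1))

/-- module CXS: homology of `S¹ × S³` -/
structure CxSStatement : Prop where
  int : ∀ i, (i = 0 ∨ i = 1 ∨ i = 3 ∨ i = 4) → Nonempty (HH i (Circle × Sn 3) ≃+ ℤ)
  zero : ∀ i, i ≠ 0 → i ≠ 1 → i ≠ 3 → i ≠ 4 → Subsingleton (HH i (Circle × Sn 3))

/-- module HX: the glued 4-dimensional space has the homology of `S¹ × S³` -/
def HXStatement : Prop := ∀ (X : Type) [TopologicalSpace X] (_ : Glued 1 X) (i : ℕ),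
  Nonempty (HH i X ≃+ HH i (Circle × Sn 3))

/-- module HY: the glued 3-dimensional space has top homology `ℤ` -/
def HYStatement : Prop := ∀ (Y : Type) [TopologicalSpace Y] (_ : Glued 0 Y),
  Nonempty (HH 3 Y ≃+ ℤ)

/-- the inclusion `ℝ^k → ℝ^(k+1)`, `x ↦ (x, 0)` -/
def incE {k : ℕ} (x : Eu k) : Eu (k + 1) := WithLp.toLp 2 (Fin.snoc (fun i => x i) 0)

/-- compatibility of a map of the glued spaces with the inclusion `S² ⊂ S³` -/
structure Compat {Y X : Type} [TopologicalSpace Y] [TopologicalSpace X] (D₀ : Glued 0 Y)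
    (D₁ : Glued 1 X) (ι : Y → X) : Prop where
  two : ∀ (a : Piece 2 0) (a' : Piece 2 1), a'.1.1 = a.1.1 →
    (a'.1.2 : Eu 4) = incE (a.1.2 : Eu 3) → ι (D₀.j₂ a) = D₁.j₂ a'
  three : ∀ (a : Piece 3 0) (a' : Piece 3 1), a'.1.1 = a.1.1 →
    (a'.1.2 : Eu 4) = incE (a.1.2 : Eu 3) → ι (D₀.j₃ a) = D₁.j₃ a'

/-- module HSURJ: the inclusion is surjective on `H₁` -/
def HSurjStatement : Prop := ∀ (Y X : Type) [TopologicalSpace Y] [TopologicalSpace X]
  (D₀ : Glued 0 Y) (D₁ : Glued 1 X) (ι : C(Y, X)), Compat D₀ D₁ ι →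
    Function.Surjective (Hm 1 ι)

/-! ### module statements: the smooth manifolds -/

/-- module TOP: existence of the glued spaces -/
def TopStatement : Prop := ∀ m : ℕ, ∃ (Z : Type) (_ : TopologicalSpace Z) (_ : Glued m Z),
  CompactSpace Z ∧ T2Space Z ∧ ConnectedSpace Z

/-- the smooth structure of the glued space is the one of the pieces -/
structure SmoothGlued {m : ℕ} {Z : Type} [TopologicalSpace Z]
    [ChartedSpace (ModelProd (Eu 1) (Eu (m + 2))) Z] (D : Glued m Z) : Prop where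
  mfd : IsManifold ((𝓡 1).prod (𝓡 (m + 2))) ∞ Z
  two : IsLocalDiffeomorph ((𝓡 1).prod (𝓡 (m + 2))) ((𝓡 1).prod (𝓡 (m + 2))) ∞ D.j₂
  three : IsLocalDiffeomorph ((𝓡 1).prod (𝓡 (m + 2))) ((𝓡 1).prod (𝓡 (m + 2))) ∞ D.j₃

/-- module SMOOTH: the glued spaces are smooth manifolds -/
def SmoothStatement : Prop := ∀ (m : ℕ) (Z : Type) [TopologicalSpace Z] (D : Glued m Z),
  ∃ _ : ChartedSpace (ModelProd (Eu 1) (Eu (m + 2))) Z, SmoothGlued D

/-- module EMB: the smooth embedding of the 3-manifold into the 4-manifold -/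
def EmbStatement : Prop := ∀ (Y X : Type) [TopologicalSpace Y] [TopologicalSpace X]
  [CompactSpace Y] [T2Space X] [ChartedSpace (ModelProd (Eu 1) (Eu 2)) Y]
  [ChartedSpace (ModelProd (Eu 1) (Eu 3)) X] (D₀ : Glued 0 Y) (D₁ : Glued 1 X),
  SmoothGlued D₀ → SmoothGlued D₁ → ∃ ι : C(Y, X), Compat D₀ D₁ ι ∧
    Manifold.IsSmoothEmbedding ((𝓡 1).prod (𝓡 2)) ((𝓡 1).prod (𝓡 3)) ∞ ι

/-! ### module statements: the non-embedding theorem -/

/-- the infinite cyclic cover of `S¹ × S³` -/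
abbrev XT : Type := ℝ × Sn 3

/-- the covering map -/
def covX : C(XT, Circle × Sn 3) := ⟨fun q => (Circle.exp (2 * Real.pi * q.1), q.2), by fun_prop⟩

/-- circle-valued functions with a continuous logarithm -/
def IsExp {X : Type} [TopologicalSpace X] (f : C(X, Circle)) : Prop :=
  ∃ u : C(X, ℝ), ∀ x, f x = Circle.exp (u x)

/-- module PHI: the generator of `H¹(Y)` -/
def PhiStatement : Prop := ∀ (m : ℕ) (Z : Type) [TopologicalSpace Z] (D : Glued m Z),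
  ∃ φ : C(Z, Circle), (∀ a, φ (D.j₂ a) = a.1.1 ^ 3) ∧ ∀ b, φ (D.j₃ b) = b.1.1 ^ 2

/-- the infinite cyclic cover of `Z` determined by `φ` -/
abbrev Yt {Z : Type} [TopologicalSpace Z] (φ : C(Z, Circle)) : Type :=
  {q : Z × ℝ // φ q.1 = Circle.exp (2 * Real.pi * q.2)}

/-- the deck transformation -/
def deck {Z : Type} [TopologicalSpace Z] (φ : C(Z, Circle)) : Yt φ ≃ₜ Yt φ where
  toFun q := ⟨(q.1.1, q.1.2 + 1), by
    rw [mul_add, mul_one, Circle.exp_add, Circle.exp_two_pi, mul_one]; exact q.2⟩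
  invFun q := ⟨(q.1.1, q.1.2 - 1), by
    rw [mul_sub, mul_one, Circle.exp_sub, Circle.exp_two_pi, div_one]; exact q.2⟩
  left_inv q := by ext <;> simp
  right_inv q := by ext <;> simp
  continuous_toFun := by fun_prop
  continuous_invFun := by fun_prop

/-- the height function on the cover -/
def height {Z : Type} [TopologicalSpace Z] (φ : C(Z, Circle)) : C(Yt φ, ℝ) :=
  ⟨fun q => q.1.2, by fun_prop⟩

/-- what has to be known about circle-valued functions on the infinite cyclic cover `P` of `Y`: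
`w f j` is the winding number of `f` around the `j`-th neck, `α j` the class of the `j`-th neck,
and `T ^ 6` acts by the product of full twists of the six necks -/
structure GFacts (P : Type) [TopologicalSpace P] (T : P ≃ₜ P) (ℓ : C(P, ℝ)) where
  w : C(P, Circle) → ZMod 6 → ℤ
  α : ZMod 6 → C(P, Circle)
  β : C(P, Circle)
  c : ℤ
  c_ne : c ≠ 0
  conn : ConnectedSpace P
  w_mul : ∀ f g j, w (f * g) j = w f j + w g j
  w_exp : ∀ f, IsExp f → ∀ j, w f j = 0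
  w_T : ∀ f j, w (f.comp (T : C(P, P))) j = w f (j - 1)
  w_three : ∀ f j, w f (j + 3) = - w f j
  w_two : ∀ f, w f 0 + w f 2 + w f 4 = 0
  w_α : ∀ i j, w (α i) j = 0
  α_T : ∀ j, IsExp ((α j).comp (T : C(P, P)) * (α (j + 1))⁻¹)
  α_three : ∀ j, IsExp (α j * α (j + 3))
  α_two : IsExp (α 0 * α 2 * α 4)
  gen : ∀ f, (∀ j, w f j = 0) → ∃ a b : ℤ, IsExp (f * (α 0 ^ a * α 2 ^ b)⁻¹)
  indep : ∀ a b : ℤ, IsExp (α 0 ^ a * α 2 ^ b) → a = 0 ∧ b = 0
  six : ∀ f : C(P, Circle), IsExp (f.comp ((T ^ 6 : P ≃ₜ P) : C(P, P)) * f⁻¹ *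
    (∏ j : ZMod 6, α j ^ (c * w f j))⁻¹)
  w_β : w β 0 = 1
  homeo : IsHomeomorph fun p : {p : P // α 0 p ≠ 1} =>
    ((⟨α 0 p, p.2⟩, β p, ℓ p) : {z : Circle // z ≠ 1} × Circle × ℝ)

/-- module GFACTS -/
def GFactsStatement : Prop := ∀ (Y : Type) [TopologicalSpace Y] (D : Glued 0 Y)
  (φ : C(Y, Circle)), (∀ a, φ (D.j₂ a) = a.1.1 ^ 3) → (∀ b, φ (D.j₃ b) = b.1.1 ^ 2) →
  Nonempty (GFacts (Yt φ) (deck φ) (height φ))

/-- module ALG: no decomposition invariant under `T ^ 2` -/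
def AlgStatement : Prop := ∀ (G : Type) [AddCommGroup G] (T : G ≃+ G) (w : G →+ (ZMod 6 → ℤ))
  (α : ZMod 6 → G) (c : ℤ), c ≠ 0 →
  (∀ (n : ℤ) (x : G), n ≠ 0 → n • x = 0 → x = 0) →
  (∀ f j, w (T f) j = w f (j - 1)) →
  (∀ f j, w f (j + 3) = - w f j) → (∀ f, w f 0 + w f 2 + w f 4 = 0) → (∀ i, w (α i) = 0) →
  (∀ j, T (α j) = α (j + 1)) → (∀ j, α j + α (j + 3) = 0) → α 0 + α 2 + α 4 = 0 →
  (∀ f, w f = 0 → ∃ a b : ℤ, f = a • α 0 + b • α 2) →
  (∀ a b : ℤ, a • α 0 + b • α 2 = 0 → a = 0 ∧ b = 0) →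
  (∀ f, T (T (T (T (T (T f))))) = f + ∑ j : ZMod 6, (c * w f j) • α j) →
  ∀ M M' : AddSubgroup G, IsCompl M M' → (∀ x ∈ M, T (T x) ∈ M) → (∀ x ∈ M', T (T x) ∈ M') →
    M = ⊤ ∨ M' = ⊤

/-- a locally flat subset of codimension one of `ℝ × S³` -/
def FlatSet (K : Set XT) : Prop := ∀ y ∈ K, ∃ e : OpenPartialHomeomorph XT (ℝ × Eu 3),
  y ∈ e.source ∧ ∀ x ∈ e.source, (x ∈ K ↔ (e x).1 = 0)

/-- module SEP: separation -/
def SepStatement : Prop := ∀ K : Set XT, IsClosed K → FlatSet K →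
  ∃ U V : Set XT, IsClosed U ∧ IsClosed V ∧ U ∪ V = univ ∧ U ∩ V = K ∧
    K ⊆ closure (U \ K) ∧ K ⊆ closure (V \ K) ∧
    ∀ T : XT ≃ₜ XT, T '' K = K → (T '' U = U ∧ T '' V = V) ∨ (T '' U = V ∧ T '' V = U)

/-- module FLAT: the preimage in `ℝ × S³` of a smoothly embedded closed 3-manifold is locally
flat -/
def FlatStatement : Prop := ∀ (Y : Type) [TopologicalSpace Y] [CompactSpace Y]
  [ChartedSpace (ModelProd (Eu 1) (Eu 2)) Y] (ι : Y → Circle × Sn 3),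
  Manifold.IsSmoothEmbedding ((𝓡 1).prod (𝓡 2)) ((𝓡 1).prod (𝓡 3)) ∞ ι →
  IsClosed (covX ⁻¹' range ι) ∧ FlatSet (covX ⁻¹' range ι)

/-- module CSPLIT: `H¹(ℝ × S³) = H²(ℝ × S³) = 0`, in terms of circle-valued functions -/
structure CSplitStatement : Prop where
  simple : ∀ f : C(XT, Circle), IsExp f
  split : ∀ U V : Set XT, IsClosed U → IsClosed V → U ∪ V = univ → ∀ f : C(↥(U ∩ V), Circle),
    ∃ (fU : C(U, Circle)) (fV : C(V, Circle)),
      ∀ (x : XT) (h : x ∈ U ∩ V), f ⟨x, h⟩ = fU ⟨x, h.1⟩ * fV ⟨x, h.2⟩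

/-- module BROU: the two circle-valued functions cannot both extend over the same side -/
def BrouStatement : Prop := ∀ (P : Type) [TopologicalSpace P] (K U V : Set XT), IsClosed U →
  IsClosed V → U ∪ V = univ → U ∩ V = K → K ⊆ closure (U \ K) → K ⊆ closure (V \ K) →
  ∀ (e : P ≃ₜ K) (ℓ : C(P, ℝ)) (α β : C(P, Circle)) (ε C : ℝ), (ε = 1 ∨ ε = -1) →
    (∀ p, |(e p).1.1 - ε * ℓ p| ≤ C) →
    IsHomeomorph (fun p : {p : P // α p ≠ 1} =>
      ((⟨α p, p.2⟩, β p, ℓ p) : {z : Circle // z ≠ 1} × Circle × ℝ)) →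
    ∀ A B : C(U, Circle), (∀ (p : P) (h : ((e p : K) : XT) ∈ U), A ⟨_, h⟩ = α p) →
      (∀ (p : P) (h : ((e p : K) : XT) ∈ U), B ⟨_, h⟩ = β p) → False

end Pool.Agent.S1S3
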