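import Pool.Agent.Helper83_S1S3.Glue

/-!
# Modules HX, HY, HSURJ
-/

set_option autoImplicit false
set_option linter.unusedSectionVars false

open scoped Manifold ContDiff Topology
open CategoryTheory Set

noncomputable section

namespace Pool.Agent.S1S3

theorem path_glued {m : ℕ} (hPi : PieceStatement) (hN : NeckStatement) {Z : Type}
    [TopologicalSpace Z] (D : Glued m Z) : PathConnectedSpace Z := by
  have h2 := hPi.pathConnected 2 m (Or.inl rfl)
  have h3 := hPi.pathConnected 3 m (Or.inr rfl)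
  have hn := hN.pathConnected m
  rw [pathConnectedSpace_iff_univ, ← D.cover]
  obtain ⟨q⟩ := hn.nonempty
  exact (isPathConnected_range D.emb₂.continuous).union (isPathConnected_range D.emb₃.continuous)
    ⟨_, ⟨_, rfl⟩, ⟨_, (D.neck_eq q).symm⟩⟩

/-- surjectivity in degree one -/
theorem gQ_one_surjective {m : ℕ} (hF : FunctStatement) (hMV : MVStatement) (h0 : H0Statement)
    (hPi : PieceStatement) (hN : NeckStatement) {Z : Type} [TopologicalSpace Z] (D : Glued m Z) :
    Function.Surjective (D.gQ 1) := by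
  obtain ⟨δ, e1, e2, e3, -⟩ := D.mv hF hMV
  have h2 := hPi.pathConnected 2 m (Or.inl rfl)
  have hn := hN.pathConnected m
  intro x
  have hx : δ 0 x = 0 := by
    have h1 : gPm m 0 (δ 0 x) = 0 := (e3 0 _).2 ⟨x, rfl⟩
    have h4 : Hm 0 (neck2 m) (δ 0 x) = 0 := congrArg Prod.fst h1
    exact (h0.bij _ _ (neck2 m)).1 (by rw [h4, map_zero])
  exact (e2 0 x).1 hx

theorem hy_of (hF : FunctStatement) (hMV : MVStatement) (hPi : PieceStatement)
    (hN : NeckStatement) : HYStatement := by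
  intro Y _ D
  obtain ⟨δ, e1, e2, e3, -⟩ := D.mv hF hMV
  obtain ⟨e⟩ := hN.two₀
  have s2 := hPi.zero₀ 2 (Or.inl rfl)
  have s3 := hPi.zero₀ 3 (Or.inr rfl)
  have i1 : Function.Injective (δ 2) := by
    rw [injective_iff_map_eq_zero]
    intro x hx
    obtain ⟨y, rfl⟩ := (e2 2 x).1 hx
    have : y = 0 := by
      have a1 := s2 3 (by norm_num)
      have a2 := s3 3 (by norm_num)
      exact Subsingleton.elim _ _
    rw [this, map_zero]
  have i2 : Function.Surjective (δ 2) := by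
    intro y
    apply (e3 2 y).1
    have a1 := s2 2 (by norm_num)
    have a2 := s3 2 (by norm_num)
    exact Subsingleton.elim _ _
  exact ⟨(AddEquiv.ofBijective (δ 2) ⟨i1, i2⟩).trans e⟩

/-! ### the winding numbers in degree one -/

/-- the winding number isomorphism -/
theorem exists_wind (hW : WindStatement) (hSph : SphStatement) :
    ∃ W : HH 1 Circle →+ ℤ, Function.Bijective W ∧
      ∀ (n : ℤ) (x : HH 1 Circle), W (Hm 1 (powC n) x) = n * W x := by
  obtain ⟨W, h1, h2⟩ := hW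
  obtain ⟨e⟩ := hSph.circle
  refine ⟨W, ⟨?_, h1⟩, h2⟩
  rw [injective_iff_map_eq_zero]
  intro x hx
  obtain ⟨x₁, hx₁⟩ := h1 1
  have h3 : ∀ y : HH 1 Circle, y = (e y) • e.symm 1 := by
    intro y
    rw [← map_zsmul, smul_eq_mul, mul_one, e.symm_apply_apply]
  have h4 : W (e.symm 1) ≠ 0 := by
    intro h
    have h5 := congrArg W (h3 x₁)
    rw [map_zsmul, h, smul_zero, hx₁] at h5
    exact one_ne_zero h5
  have h5 := congrArg W (h3 x)
  rw [hx, map_zsmul, smul_eq_mul] at h5
  have h6 : e x = 0 := by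
    rcases mul_eq_zero.1 h5.symm with h7 | h7
    · exact h7
    · exact absurd h7 h4
  rw [h3 x, h6, zero_smul]

/-- the data in degree one -/
theorem deg_one (hF : FunctStatement) (hW : WindStatement) (hSph : SphStatement)
    (hPi : PieceStatement) (hN : NeckStatement) :
    ∃ (w₂ : HH 1 (Piece 2 1) →+ ℤ) (w₃ : HH 1 (Piece 3 1) →+ ℤ) (wN : HH 1 (Neck 1) →+ ℤ),
      Function.Bijective w₂ ∧ Function.Bijective w₃ ∧ Function.Bijective wN ∧
      (∀ x, w₂ (gPm 1 1 x).1 = 2 * wN x) ∧ ∀ x, w₃ (gPm 1 1 x).2 = 3 * wN x := by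
  obtain ⟨W, hWb, hWp⟩ := exists_wind hW hSph
  refine ⟨W.comp (Hm 1 (prPiece 2 1)), W.comp (Hm 1 (prPiece 3 1)), W.comp (Hm 1 (prNeck 1)),
    hWb.comp (hPi.proj 2 (Or.inl rfl)), hWb.comp (hPi.proj 3 (Or.inr rfl)), hWb.comp hN.proj,
    fun x => ?_, fun x => ?_⟩
  · change W (Hm 1 (prPiece 2 1) (Hm 1 (neck2 1) x)) = 2 * W (Hm 1 (prNeck 1) x)
    rw [← hWp, Hm_comp_apply hF, Hm_comp_apply hF]
    rfl
  · change W (Hm 1 (prPiece 3 1) (Hm 1 (neck3 1) x)) = 3 * W (Hm 1 (prNeck 1) x)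
    rw [← hWp, Hm_comp_apply hF, Hm_comp_apply hF]
    rfl

theorem gP_one_injective (hF : FunctStatement) (hW : WindStatement) (hSph : SphStatement)
    (hPi : PieceStatement) (hN : NeckStatement) : Function.Injective (gPm 1 1) := by
  obtain ⟨w₂, w₃, wN, b2, b3, bN, r2, r3⟩ := deg_one hF hW hSph hPi hN
  rw [injective_iff_map_eq_zero]
  intro x hx
  have h1 := r2 x
  rw [hx, Prod.fst_zero, map_zero] at h1
  have h2 : wN x = 0 := by omega
  exact bN.1 (by rw [h2, map_zero])

/-- the gluing map fixes the small sphere -/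
theorem twN_smallN (m : ℕ) : (twN m : C(Neck m, Neck m)).comp (smallN m) = smallN m := by
  refine ContinuousMap.ext fun u => Subtype.ext ?_
  refine Prod.ext rfl ?_
  change tw (1 : Circle) ((1 / 4 : ℝ) • (u : Eu (m + 2))) = (1 / 4 : ℝ) • (u : Eu (m + 2))
  unfold tw
  rw [norm_small, Circle.coe_one, rot_one]
  norm_num

/-- the data in degree two -/
theorem deg_two (hF : FunctStatement) (hSph : SphStatement) (hPi : PieceStatement)
    (hN : NeckStatement) : ∃ (g : HH 2 (Neck 1)) (g₂ : HH 2 (Piece 2 1)) (g₃ : HH 2 (Piece 3 1)),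
      (∀ x, ∃ a : ℤ, x = a • g) ∧ (∀ x, ∃ a : ℤ, x = a • g₂) ∧ (∀ x, ∃ a : ℤ, x = a • g₃) ∧
      (∀ a : ℤ, a • g = 0 → a = 0) ∧ (∀ a : ℤ, a • g₂ = 0 ↔ (2 : ℤ) ∣ a) ∧
      (∀ a : ℤ, a • g₃ = 0 ↔ (3 : ℤ) ∣ a) ∧ gPm 1 2 g = (g₂, g₃) := by
  obtain ⟨e⟩ := hSph.top 2 two_ne_zero
  have hg : ∀ x : HH 2 (Sn 2), ∃ a : ℤ, x = a • e.symm 1 := by
    intro x
    refine ⟨e x, ?_⟩
    rw [← map_zsmul, smul_eq_mul, mul_one, e.symm_apply_apply]
  refine ⟨Hm 2 (smallN 1) (e.symm 1), Hm 2 ((neckMap 2 1 (Or.inl rfl)).comp (smallN 1)) (e.symm 1),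
    Hm 2 ((neckMap 3 1 (Or.inr rfl)).comp (smallN 1)) (e.symm 1), hN.gen _ hg,
    hPi.gen 2 (Or.inl rfl) _ hg, hPi.gen 3 (Or.inr rfl) _ hg, hN.free _ hg,
    fun a => by simpa using hPi.rel 2 (Or.inl rfl) _ hg a,
    fun a => by simpa using hPi.rel 3 (Or.inr rfl) _ hg a, ?_⟩
  refine Prod.ext ?_ ?_
  · change Hm 2 (neck2 1) (Hm 2 (smallN 1) (e.symm 1)) = _
    rw [Hm_comp_apply hF]
    rfl
  · change Hm 2 (neck3 1) (Hm 2 (smallN 1) (e.symm 1)) = _
    rw [Hm_comp_apply hF]
    have : (neck3 1).comp (smallN 1) = (neckMap 3 1 (Or.inr rfl)).comp (smallN 1) := by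
      unfold neck3
      rw [ContinuousMap.comp_assoc, twN_smallN]
    rw [this]

/-- the homology of the glued 4-dimensional space -/
theorem hx_int (hF : FunctStatement) (hMV : MVStatement) (h0 : H0Statement)
    (hW : WindStatement) (hSph : SphStatement) (hPi : PieceStatement) (hN : NeckStatement)
    {X : Type} [TopologicalSpace X] (D : Glued 1 X) :
    (∀ i, (i = 0 ∨ i = 1 ∨ i = 3 ∨ i = 4) → Nonempty (HH i X ≃+ ℤ)) ∧
    (∀ i, i ≠ 0 → i ≠ 1 → i ≠ 3 → i ≠ 4 → Subsingleton (HH i X)) := by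
  obtain ⟨δ, e1, e2, e3, -⟩ := D.mv hF hMV
  have s2 := hPi.zero₁ 2 (Or.inl rfl)
  have s3 := hPi.zero₁ 3 (Or.inr rfl)
  have hinj : ∀ i, 2 ≤ i → Function.Injective (δ i) := by
    intro i hi
    rw [injective_iff_map_eq_zero]
    intro x hx
    obtain ⟨y, rfl⟩ := (e2 i x).1 hx
    have : y = 0 := by
      have a1 := s2 (i + 1) (by omega)
      have a2 := s3 (i + 1) (by omega)
      exact Subsingleton.elim _ _
    rw [this, map_zero]
  obtain ⟨g, g₂, g₃, G, G₂, G₃, R, R₂, R₃, hg⟩ := deg_two hF hSph hPi hN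
  obtain ⟨w₂, w₃, wN, b2, b3, bN, r2, r3⟩ := deg_one hF hW hSph hPi hN
  refine ⟨?_, ?_⟩
  · rintro i (rfl | rfl | rfl | rfl)
    · -- degree zero
      have := path_glued hPi hN D
      exact h0.int X
    · -- degree one
      obtain ⟨a₀, ha₀⟩ := b2.2 1
      obtain ⟨b₀, hb₀⟩ := b3.2 1
      set x₀ := D.gQ 1 (a₀, b₀) with hx₀
      have hk : Function.Bijective (zmultiplesHom (HH 1 X) x₀) := by
        constructor
        · rw [injective_iff_map_eq_zero]
          intro n hn
          have hn : n • x₀ = 0 := hn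
          rw [hx₀, ← map_zsmul] at hn
          obtain ⟨y, hy⟩ := (e1 1 _).1 hn
          have h2 := r2 y
          have h3 := r3 y
          rw [hy] at h2 h3
          have h2 : w₂ (n • a₀) = 2 * wN y := h2
          have h3 : w₃ (n • b₀) = 3 * wN y := h3
          rw [map_zsmul, ha₀, smul_eq_mul] at h2
          rw [map_zsmul, hb₀, smul_eq_mul] at h3
          omega
        · intro x
          obtain ⟨⟨a, b⟩, rfl⟩ := gQ_one_surjective hF hMV h0 hPi hN D x
          refine ⟨3 * w₂ a - 2 * w₃ b, ?_⟩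
          change (3 * w₂ a - 2 * w₃ b) • x₀ = _
          obtain ⟨y, hy⟩ := bN.2 (w₃ b - w₂ a)
          have h1 : gPm 1 1 y + (3 * w₂ a - 2 * w₃ b) • (a₀, b₀) = (a, b) := by
            refine Prod.ext ?_ ?_
            · apply b2.1
              change w₂ ((gPm 1 1 y).1 + (3 * w₂ a - 2 * w₃ b) • a₀) = w₂ a
              rw [map_add, map_zsmul, r2, ha₀, hy, smul_eq_mul]
              ring
            · apply b3.1
              change w₃ ((gPm 1 1 y).2 + (3 * w₂ a - 2 * w₃ b) • b₀) = w₃ b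
              rw [map_add, map_zsmul, r3, hb₀, hy, smul_eq_mul]
              ring
          rw [← h1, map_add, map_zsmul, (e1 1 _).2 ⟨y, rfl⟩, zero_add]
      exact ⟨(AddEquiv.ofBijective _ hk).symm⟩
    · -- degree three
      have h6 : gPm 1 2 ((6 : ℤ) • g) = 0 := by
        rw [map_zsmul, hg]
        refine Prod.ext ?_ ?_
        · exact (R₂ 6).2 (by norm_num)
        · exact (R₃ 6).2 (by norm_num)
      obtain ⟨x₀, hx₀⟩ := (e3 2 _).1 h6
      have hk : Function.Bijective (zmultiplesHom (HH 3 X) x₀) := by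
        constructor
        · rw [injective_iff_map_eq_zero]
          intro n hn
          have hn : n • x₀ = 0 := hn
          have h1 := congrArg (δ 2) hn
          rw [map_zsmul, hx₀, map_zero, smul_smul] at h1
          have := R _ h1
          omega
        · intro x
          obtain ⟨a, ha⟩ := G (δ 2 x)
          have h1 : gPm 1 2 (δ 2 x) = 0 := (e3 2 _).2 ⟨x, rfl⟩
          rw [ha, map_zsmul, hg] at h1
          have h2 : (2 : ℤ) ∣ a := (R₂ a).1 (congrArg Prod.fst h1)
          have h3 : (3 : ℤ) ∣ a := (R₃ a).1 (congrArg Prod.snd h1)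
          obtain ⟨n, rfl⟩ : (6 : ℤ) ∣ a := by omega
          refine ⟨n, ?_⟩
          change n • x₀ = x
          apply hinj 2 le_rfl
          rw [map_zsmul, hx₀, ha, smul_smul, mul_comm]
      exact ⟨(AddEquiv.ofBijective _ hk).symm⟩
    · -- degree four
      obtain ⟨e⟩ := hN.three
      have i2 : Function.Surjective (δ 3) := by
        intro y
        apply (e3 3 y).1
        have a1 := s2 3 (by norm_num)
        have a2 := s3 3 (by norm_num)
        exact Subsingleton.elim _ _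
      exact ⟨(AddEquiv.ofBijective (δ 3) ⟨hinj 3 (by norm_num), i2⟩).trans e⟩
  · intro i i0 i1 i3 i4
    have hi : i = 2 ∨ ∃ k, i = k + 5 := by
      by_cases h : i = 2
      · exact Or.inl h
      · exact Or.inr ⟨i - 5, by omega⟩
    rcases hi with rfl | ⟨k, rfl⟩
    · -- degree two
      have hz : ∀ x : HH 2 X, x = 0 := by
        intro x
        have h1 : δ 1 x = 0 := by
          apply gP_one_injective hF hW hSph hPi hN
          rw [map_zero]
          exact (e3 1 _).2 ⟨x, rfl⟩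
        obtain ⟨⟨a, b⟩, rfl⟩ := (e2 1 x).1 h1
        obtain ⟨a', rfl⟩ := G₂ a
        obtain ⟨b', rfl⟩ := G₃ b
        refine (e1 2 _).2 ⟨(3 * a' - 2 * b') • g, ?_⟩
        rw [map_zsmul, hg]
        refine Prod.ext ?_ ?_
        · change (3 * a' - 2 * b') • g₂ = a' • g₂
          have h5 : (2 * (a' - b')) • g₂ = 0 := (R₂ _).2 ⟨a' - b', rfl⟩
          have h6 : (3 * a' - 2 * b') • g₂ = (2 * (a' - b')) • g₂ + a' • g₂ := by
            rw [← add_zsmul]
            congr 1
            ring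
          rw [h6, h5, zero_add]
        · change (3 * a' - 2 * b') • g₃ = b' • g₃
          have h5 : (3 * (a' - b')) • g₃ = 0 := (R₃ _).2 ⟨a' - b', rfl⟩
          have h6 : (3 * a' - 2 * b') • g₃ = (3 * (a' - b')) • g₃ + b' • g₃ := by
            rw [← add_zsmul]
            congr 1
            ring
          rw [h6, h5, zero_add]
      exact ⟨fun x y => by rw [hz x, hz y]⟩
    · -- higher degrees
      have a1 := hN.zero₁ (k + 4) (by omega)
      exact (hinj (k + 4) (by omega)).subsingleton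

/-- module HX -/
theorem hx_of (hF : FunctStatement) (hMV : MVStatement) (h0 : H0Statement)
    (hW : WindStatement) (hSph : SphStatement) (hPi : PieceStatement) (hN : NeckStatement)
    (hC : CxSStatement) : HXStatement := by
  intro X _ D i
  obtain ⟨h1, h2⟩ := hx_int hF hMV h0 hW hSph hPi hN D
  by_cases hi : i = 0 ∨ i = 1 ∨ i = 3 ∨ i = 4
  · obtain ⟨a⟩ := h1 i hi
    obtain ⟨b⟩ := hC.int i hi
    exact ⟨a.trans b.symm⟩
  · have a := h2 i (by tauto) (by tauto) (by tauto) (by tauto)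
    have b := hC.zero i (by tauto) (by tauto) (by tauto) (by tauto)
    exact ⟨{ toFun := fun _ => 0, invFun := fun _ => 0, left_inv := fun _ => Subsingleton.elim _ _,
             right_inv := fun _ => Subsingleton.elim _ _, map_add' := fun _ _ => by simp }⟩

/-! ### HSURJ -/

theorem incE_single : (incE (EuclideanSpace.single 2 1 : Eu 3) : Eu 4) =
    EuclideanSpace.single 2 1 := by
  ext i
  fin_cases i <;> simp [incE, Fin.snoc]
  all_goals rfl

theorem single_ne_core {m : ℕ} (ζ : Circle) :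
    (EuclideanSpace.single 2 1 : Eu (m + 3)) ≠ core ζ := by
  intro h
  have h1 := congrArg (fun x : Eu (m + 3) => x ((0 : Fin (m + 1)).succ.succ)) h
  have h2 : ((0 : Fin (m + 1)).succ.succ : Fin (m + 3)) = 2 := rfl
  unfold core at h1
  simp only [rot_apply_ge] at h1
  rw [h2] at h1
  have h3 : (2 : Fin (m + 3)) ≠ 0 := by
    rw [← h2]
    exact Fin.succ_ne_zero _
  simp [h3] at h1

/-- a section of the projection of the piece to the circle -/
def polP (p m : ℕ) : C(Circle, Piece p m) where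
  toFun z := ⟨(z, ⟨EuclideanSpace.single 2 1, by simp⟩), fun ζ _ => single_ne_core ζ⟩
  continuous_toFun := by
    refine Continuous.subtype_mk ?_ _
    fun_prop

/-- module HSURJ -/
theorem hsurj_of (hF : FunctStatement) (hMV : MVStatement) (h0 : H0Statement)
    (hPi : PieceStatement) (hN : NeckStatement) : HSurjStatement := by
  intro Y X _ _ D₀ D₁ ι hι x
  obtain ⟨⟨a, b⟩, rfl⟩ := gQ_one_surjective hF hMV h0 hPi hN D₁ x
  have key : ∀ p, (p = 2 ∨ p = 3) → ∀ a : HH 1 (Piece p 1), ∃ y : HH 1 Circle,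
      Hm 1 (polP p 1) y = a := by
    intro p hp a
    refine ⟨Hm 1 (prPiece p 1) a, ?_⟩
    apply (hPi.proj p hp).1
    rw [Hm_comp_apply hF]
    have h1 : (prPiece p 1).comp (polP p 1) = ContinuousMap.id Circle := by
      ext z
      rfl
    rw [h1, hF.id]
    rfl
  obtain ⟨y, rfl⟩ := key 2 (Or.inl rfl) a
  obtain ⟨z, rfl⟩ := key 3 (Or.inr rfl) b
  refine ⟨Hm 1 (D₀.c₂.comp (polP 2 0)) y - Hm 1 (D₀.c₃.comp (polP 3 0)) z, ?_⟩
  rw [map_sub, D₁.gQ_apply, Hm_comp_apply hF, Hm_comp_apply hF, Hm_comp_apply hF,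
    Hm_comp_apply hF]
  have h2 : ι.comp (D₀.c₂.comp (polP 2 0)) = D₁.c₂.comp (polP 2 1) := by
    refine ContinuousMap.ext fun z => ?_
    exact hι.two (polP 2 0 z) (polP 2 1 z) rfl incE_single.symm
  have h3 : ι.comp (D₀.c₃.comp (polP 3 0)) = D₁.c₃.comp (polP 3 1) := by
    refine ContinuousMap.ext fun z => ?_
    exact hι.three (polP 3 0 z) (polP 3 1 z) rfl incE_single.symm
  rw [h2, h3]

end Pool.Agent.S1S3
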