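import Pool.Agent.Helper83_S1S3.Final
import Pool.Agent.Helper83_S1S3.HX
import Pool.Agent.Helper53_S1S3.H0
import Pool.Agent.Helper53_S1S3.Sph
import Pool.Agent.Helper98_S1S3.MV1
import Pool.Agent.Helper98_S1S3.MV3
import Pool.Agent.Helper26_S1S3.Small
import Pool.Agent.Helper2_S1S3.Wind
import Pool.Agent.Helper2_S1S3.Neck
import Pool.Agent.Helper22_S1S3.Piece
import Pool.Agent.Helper38_S1S3.Emb
import Pool.Agent.Helper58_S1S3.Top
import Pool.Agent.Helper58_S1S3.Smooth
import Pool.Agent.Helper65_S1S3.Wang
import Pool.Agent.Helper65_S1S3.Punct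
import Pool.Agent.Helper65_S1S3.Flat
import Pool.Agent.Helper69_S1S3.Alg
import Pool.Agent.Helper69_S1S3.CSplit
import Pool.Agent.Helper69_S1S3.Sep
import Pool.Agent.Helper81_S1S3.Brou
import Pool.Agent.Helper81_S1S3.Phi
import Pool.Agent.Helper81_S1S3.GFactsMain

/-!
# Assembly: all modules
-/

set_option autoImplicit false

noncomputable section

namespace Pool.Agent.S1S3

theorem mvAll : MVStatement := mv3 mv1 mv2

theorem final_mod (hG : GFactsStatement) : FinalStatement := by
  have hF : FunctStatement := H53.funct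
  have h0 : H0Statement := H53.h0
  have hMV : MVStatement := mvAll
  have hS : SphStatement := H53.sph hMV
  have hW : WangStatement := H65.wang hF h0 hMV
  have hP : PunctStatement := H65.punct hF h0 hMV hS
  have hPi : PieceStatement := Helper22.piece hF h0 hS hW hP
  have hC : CxSStatement := cxs hF h0 hS hW
  have hN : NeckStatement := neck hF h0 hS hW
  have hWi : WindStatement := wind mv1
  exact final_of hF hWi phi hG alg sep H65.flat csplit brou top smooth Helper38S1S3.emb
    (hx_of hF hMV h0 hWi hS hPi hN hC) (hy_of hF hMV hPi hN) (hsurj_of hF hMV h0 hPi hN)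

/-- the full answer to Q1 of MP_8e71ea_gt -/
theorem finalTheorem : FinalStatement := final_mod gfacts

end Pool.Agent.S1S3
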