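import Mathlib

set_option autoImplicit false
set_option linter.unusedSectionVars false

open scoped Manifold ContDiff Topology
open CategoryTheory

noncomputable section

namespace Pool.Agent.S1S3

/-- Euclidean space -/
abbrev Eu (n : ℕ) : Type := EuclideanSpace ℝ (Fin n)

/-- the unit sphere `S^n` in `ℝ^(n+1)` -/
abbrev Sn (n : ℕ) : Type := Metric.sphere (0 : Eu (n + 1)) 1

/-! ### singular homology with integer coefficients (Mathlib) -/

/-- singular homology `H_i(X; ℤ)` -/
abbrev HH (i : ℕ) (X : Type) [TopologicalSpace X] : ModuleCat.{0} ℤ :=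
  ((AlgebraicTopology.singularHomologyFunctor (ModuleCat.{0} ℤ) i).obj
    (ModuleCat.of ℤ ℤ)).obj (TopCat.of X)

/-- the map induced on `H_i` by a continuous map -/
def Hm (i : ℕ) {X Y : Type} [TopologicalSpace X] [TopologicalSpace Y] (f : C(X, Y)) :
    HH i X →+ HH i Y :=
  (((AlgebraicTopology.singularHomologyFunctor (ModuleCat.{0} ℤ) i).obj
    (ModuleCat.of ℤ ℤ)).map (TopCat.ofHom f)).hom.toAddMonoidHom

/-! ### the pieces -/

/-- rotation by `z` in the plane of the first two coordinates -/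
def rot {k : ℕ} (z : ℂ) (x : Eu (k + 2)) : Eu (k + 2) :=
  WithLp.toLp 2 fun i =>
    if i = 0 then z.re * x 0 - z.im * x 1 else if i = 1 then z.im * x 0 + z.re * x 1 else x i

/-- `b ↦ (√(1 - |b|²), b)` -/
def sg {k : ℕ} (b : Eu k) : Eu (k + 1) :=
  WithLp.toLp 2 (Fin.cons (Real.sqrt (1 - ‖b‖ ^ 2)) fun i => b i)

/-- the tube map, second component -/
def tubeV {m : ℕ} (ζ : Circle) (b : Eu (m + 2)) : Eu (m + 3) := rot (ζ : ℂ) (sg b)

/-- the removed curve, second component -/
def core {m : ℕ} (ζ : Circle) : Eu (m + 3) := rot (ζ : ℂ) (EuclideanSpace.single 0 1)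

/-- the piece `S¹ × S^(m+2)` minus the closed curve `ζ ↦ (ζ^p, ζ e₀)` -/
def pieceSet (p m : ℕ) : Set (Circle × Sn (m + 2)) :=
  {q | ∀ ζ : Circle, ζ ^ p = q.1 → (q.2 : Eu (m + 3)) ≠ core ζ}

/-- the gluing of the necks: inversion of the radius and one full twist -/
def tw {m : ℕ} (ζ : Circle) (b : Eu (m + 2)) : Eu (m + 2) :=
  ((1 / 2 - ‖b‖) / ‖b‖) • rot (ζ : ℂ) b

end Pool.Agent.S1S3
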