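import Pool.Agent.Helper83_S1S3.Stmts

/-!
# Circle-valued functions: basic lemmas, and the classification of circle-valued functions on `Y`
-/

set_option autoImplicit false
set_option linter.unusedSectionVars false

open scoped Manifold ContDiff Topology
open CategoryTheory Set

noncomputable section

namespace Pool.Agent.S1S3

variable {X Y Z : Type} [TopologicalSpace X] [TopologicalSpace Y] [TopologicalSpace Z]

/-- `exp (i u)` as a circle-valued function -/
def expC (u : C(X, ℝ)) : C(X, Circle) := Circle.exp.comp u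

@[simp] theorem expC_apply (u : C(X, ℝ)) (x : X) : expC u x = Circle.exp (u x) := rfl

theorem isExp_expC (u : C(X, ℝ)) : IsExp (expC u) := ⟨u, fun _ => rfl⟩

theorem IsExp.eq {f : C(X, Circle)} (h : IsExp f) : ∃ u, f = expC u := by
  obtain ⟨u, hu⟩ := h
  exact ⟨u, ContinuousMap.ext hu⟩

theorem isExp_one : IsExp (1 : C(X, Circle)) := ⟨0, fun x => by simp⟩

theorem IsExp.mul {f g : C(X, Circle)} (hf : IsExp f) (hg : IsExp g) : IsExp (f * g) := by
  obtain ⟨u, hu⟩ := hf
  obtain ⟨v, hv⟩ := hg
  exact ⟨u + v, fun x => by simp [hu, hv, Circle.exp_add]⟩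

theorem IsExp.inv {f : C(X, Circle)} (hf : IsExp f) : IsExp f⁻¹ := by
  obtain ⟨u, hu⟩ := hf
  exact ⟨-u, fun x => by simp [hu, Circle.exp_neg]⟩

theorem IsExp.zpow {f : C(X, Circle)} (hf : IsExp f) (n : ℤ) : IsExp (f ^ n) := by
  obtain ⟨u, hu⟩ := hf
  refine ⟨(n : ℝ) • u, fun x => ?_⟩
  rw [ContinuousMap.zpow_apply, hu, ContinuousMap.smul_apply, smul_eq_mul, ← zsmul_eq_mul,
    Circle.exp_zsmul]

theorem IsExp.comp {f : C(Y, Circle)} (hf : IsExp f) (g : C(X, Y)) : IsExp (f.comp g) := by
  obtain ⟨u, hu⟩ := hf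
  exact ⟨u.comp g, fun x => hu (g x)⟩

/-- the subgroup of functions with a logarithm -/
def expSub (X : Type) [TopologicalSpace X] : Subgroup C(X, Circle) where
  carrier := {f | IsExp f}
  one_mem' := isExp_one
  mul_mem' := fun hf hg => hf.mul hg
  inv_mem' := fun hf => hf.inv

theorem mem_expSub {f : C(X, Circle)} : f ∈ expSub X ↔ IsExp f := Iff.rfl

/-- a circle-valued function whose power has a logarithm has a logarithm, on a connected space -/
theorem IsExp.of_zpow [ConnectedSpace X] {f : C(X, Circle)} {n : ℤ} (hn : n ≠ 0)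
    (h : IsExp (f ^ n)) : IsExp f := by
  obtain ⟨u, hu⟩ := h
  set g : C(X, Circle) := f * expC (-((n : ℝ)⁻¹ • u)) with hg
  have hgn : ∀ x, g x ^ n = 1 := by
    intro x
    have h1 := hu x
    rw [ContinuousMap.zpow_apply] at h1
    rw [hg, ContinuousMap.mul_apply, mul_zpow, h1, expC_apply, ← Circle.exp_zsmul, ← Circle.exp_add]
    have : u x + n • (-((n : ℝ)⁻¹ • u)) x = 0 := by
      have hn' : (n : ℝ) ≠ 0 := Int.cast_ne_zero.2 hn
      simp only [ContinuousMap.neg_apply, ContinuousMap.smul_apply, smul_eq_mul, zsmul_eq_mul]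
      field_simp
      ring
    rw [this, Circle.exp_zero]
  have hfin : ({z : Circle | z ^ n = 1}).Finite := by
    have hsub : {z : Circle | z ^ n = 1} ⊆ {z : Circle | z ^ n.natAbs = 1} := by
      intro z hz
      have hz : z ^ n = 1 := hz
      change z ^ n.natAbs = 1
      rcases Int.natAbs_eq n with h1 | h1
      · rw [h1, zpow_natCast] at hz
        exact hz
      · rw [h1, zpow_neg, zpow_natCast, inv_eq_one] at hz
        exact hz
    refine Set.Finite.subset ?_ hsub
    have hpos : 0 < n.natAbs := Int.natAbs_pos.2 hn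
    have h2 : ((fun z : Circle => (z : ℂ)) '' {z : Circle | z ^ n.natAbs = 1}).Finite := by
      refine Set.Finite.subset (Polynomial.nthRoots n.natAbs (1 : ℂ)).toFinset.finite_toSet ?_
      rintro _ ⟨z, hz, rfl⟩
      have hz : z ^ n.natAbs = 1 := hz
      rw [Finset.mem_coe, Multiset.mem_toFinset, Polynomial.mem_nthRoots hpos]
      rw [← Circle.coe_pow, hz, Circle.coe_one]
    exact Set.Finite.of_finite_image h2 (Subtype.coe_injective.injOn)
  have hconst : ∀ x y, g x = g y := by
    intro x y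
    have hr : (range g).Finite := hfin.subset (by rintro _ ⟨x, rfl⟩; exact hgn x)
    have hp : _root_.IsPreconnected (range g) := isPreconnected_range g.continuous
    by_contra hne
    exact hp.infinite_of_nontrivial ⟨g x, mem_range_self x, g y, mem_range_self y, hne⟩ hr
  obtain ⟨x₀⟩ : Nonempty X := inferInstance
  obtain ⟨c, hc⟩ : ∃ c : ℝ, Circle.exp c = g x₀ := ⟨_, Circle.exp_arg (g x₀)⟩
  refine ⟨(n : ℝ)⁻¹ • u + ContinuousMap.const X c, fun x => ?_⟩
  have h3 : f x = g x * Circle.exp (((n : ℝ)⁻¹ • u) x) := by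
    rw [hg, ContinuousMap.mul_apply, expC_apply, ContinuousMap.neg_apply, Circle.exp_neg]
    simp
  rw [h3, hconst x x₀, ← hc, ContinuousMap.add_apply, ContinuousMap.const_apply, ← Circle.exp_add,
    add_comm]

/-- the projection of the cover -/
def prY (φ : C(Y, Circle)) : C(Yt φ, Y) := ⟨fun q => q.1.1, by fun_prop⟩

theorem exp_two_pi_int (n : ℤ) : Circle.exp (2 * Real.pi * n) = 1 := by
  have : (2 * Real.pi * (n : ℝ)) = n • (2 * Real.pi) := by
    rw [zsmul_eq_mul, mul_comm]
  rw [this, Circle.exp_zsmul, Circle.exp_two_pi, one_zpow]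

/-- descent of invariant real functions from the cover -/
theorem exists_descent (φ : C(Y, Circle)) (v : C(Yt φ, ℝ)) (hv : ∀ q, v (deck φ q) = v q) :
    ∃ v' : C(Y, ℝ), ∀ q : Yt φ, v q = v' q.1.1 := by
  have hv' : ∀ (n : ℕ) (q : Yt φ) (h : φ q.1.1 = Circle.exp (2 * Real.pi * (q.1.2 + n))),
      v ⟨(q.1.1, q.1.2 + n), h⟩ = v q := by
    intro n
    induction n with
    | zero =>
      intro q h
      congr 1
      ext <;> simp
    | succ n ih =>
      intro q h
      have h1 : φ q.1.1 = Circle.exp (2 * Real.pi * (q.1.2 + n)) := by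
        rw [mul_add, Circle.exp_add]
        have := exp_two_pi_int n
        rw [Int.cast_natCast] at this
        rw [this, mul_one]
        exact q.2
      rw [← ih q h1, ← hv ⟨(q.1.1, q.1.2 + n), h1⟩]
      congr 1
      ext
      · rfl
      · simp [deck, add_assoc]
  have hwd : ∀ (q q' : Yt φ), q.1.1 = q'.1.1 → v q = v q' := by
    have key : ∀ (q q' : Yt φ), q.1.1 = q'.1.1 → ∀ n : ℕ, q'.1.2 = q.1.2 + n → v q = v q' := by
      intro q q' h n hn
      have h1 : φ q.1.1 = Circle.exp (2 * Real.pi * (q.1.2 + n)) := by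
        rw [← hn, h]
        exact q'.2
      rw [← hv' n q h1]
      congr 1
      ext
      · exact h
      · exact hn.symm
    intro q q' h
    have h1 : Circle.exp (2 * Real.pi * q'.1.2) = Circle.exp (2 * Real.pi * q.1.2) := by
      rw [← q.2, ← q'.2, h]
    obtain ⟨m, hm⟩ := Circle.exp_eq_exp.1 h1
    have hm' : q'.1.2 = q.1.2 + m := by
      have hpi := Real.pi_pos
      have : 2 * Real.pi * (q'.1.2 - (q.1.2 + m)) = 0 := by linarith
      rcases mul_eq_zero.1 this with h2 | h2
      · exfalso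
        linarith
      · linarith
    rcases Int.le_total 0 m with h0 | h0
    · obtain ⟨n, rfl⟩ := Int.eq_ofNat_of_zero_le h0
      exact key q q' h n (by rw [hm']; simp)
    · obtain ⟨n, hn⟩ := Int.eq_ofNat_of_zero_le (neg_nonneg.2 h0)
      refine (key q' q h.symm n ?_).symm
      have : (m : ℝ) = -(n : ℝ) := by
        have : m = -(n : ℤ) := by rw [← hn]; ring
        rw [this]
        push_cast
        ring
      rw [hm', this]
      ring
  -- the section
  have hsec : ∀ y : Y, φ y = Circle.exp (2 * Real.pi * (Complex.arg (φ y) / (2 * Real.pi))) := by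
    intro y
    rw [mul_div_cancel₀ _ (by positivity : (2 * Real.pi) ≠ 0), Circle.exp_arg]
  let v' : Y → ℝ := fun y => v ⟨(y, Complex.arg (φ y) / (2 * Real.pi)), hsec y⟩
  have hcont : Continuous v' := by
    rw [continuous_iff_continuousAt]
    intro y₀
    -- a local continuous section
    obtain ⟨s₀, hs₀⟩ : ∃ s₀ : ℝ, φ y₀ = Circle.exp (2 * Real.pi * s₀) := ⟨_, hsec y₀⟩
    let s : Y → ℝ := fun y => s₀ + Complex.arg ((φ y / φ y₀ : Circle) : ℂ) / (2 * Real.pi)
    have hs : ∀ y, φ y = Circle.exp (2 * Real.pi * s y) := by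
      intro y
      have : 2 * Real.pi * s y = 2 * Real.pi * s₀ + Complex.arg ((φ y / φ y₀ : Circle) : ℂ) := by
        change 2 * Real.pi * (s₀ + _ / (2 * Real.pi)) = _
        rw [mul_add, mul_div_cancel₀ _ (by positivity : (2 * Real.pi) ≠ 0)]
      rw [this, Circle.exp_add, ← hs₀, Circle.exp_arg]
      simp
    have hsc : ContinuousAt s y₀ := by
      refine continuousAt_const.add (ContinuousAt.div_const ?_ _)
      have h1 : ContinuousAt Complex.arg ((φ y₀ / φ y₀ : Circle) : ℂ) := by
        rw [div_self', Circle.coe_one]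
        exact Complex.continuousAt_arg (by simp)
      have h2 : ContinuousAt (fun y => ((φ y / φ y₀ : Circle) : ℂ)) y₀ := by
        have : Continuous (fun y => ((φ y / φ y₀ : Circle) : ℂ)) := by fun_prop
        exact this.continuousAt
      exact ContinuousAt.comp (f := fun y => ((φ y / φ y₀ : Circle) : ℂ)) h1 h2
    have heq : v' = fun y => v ⟨(y, s y), hs y⟩ := by
      funext y
      exact hwd _ _ rfl
    rw [heq]
    have h3 : ContinuousAt (fun y => (⟨(y, s y), hs y⟩ : Yt φ)) y₀ :=
      Topology.IsInducing.subtypeVal.continuousAt_iff.2 (continuousAt_id.prodMk hsc)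
    exact v.continuous.continuousAt.comp h3
  refine ⟨⟨v', hcont⟩, fun q => hwd _ _ rfl⟩

theorem comp_mul' (f g : C(Y, Circle)) (h : C(X, Y)) : (f * g).comp h = f.comp h * g.comp h :=
  rfl

theorem comp_inv' (f : C(Y, Circle)) (h : C(X, Y)) : (f⁻¹).comp h = (f.comp h)⁻¹ := rfl

theorem comp_zpow' (f : C(Y, Circle)) (h : C(X, Y)) (n : ℤ) :
    (f ^ n).comp h = (f.comp h) ^ n := by
  ext x
  simp

/-- module DESC: every circle-valued function on `Y` is a power of `φ` up to a logarithm -/
theorem desc {φ : C(Y, Circle)} (G : GFacts (Yt φ) (deck φ) (height φ)) (f : C(Y, Circle)) :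
    ∃ (n : ℤ) (v : C(Y, ℝ)), ∀ y, f y = φ y ^ n * Circle.exp (v y) := by
  have := G.conn
  set F : C(Yt φ, Circle) := f.comp (prY φ) with hF
  have hFT : F.comp (deck φ : C(Yt φ, Yt φ)) = F := by
    ext q
    rfl
  have hw1 : ∀ j, G.w F j = G.w F (j - 1) := fun j => by
    conv_lhs => rw [← hFT]
    exact G.w_T F j
  have hw0 : ∀ j, G.w F j = 0 := by
    intro j
    have h1 := hw1 (j + 3)
    have h2 := hw1 (j + 2)
    have h3 := hw1 (j + 1)
    have e1 : j + 3 - 1 = j + 2 := by ring
    have e2 : j + 2 - 1 = j + 1 := by ring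
    have e3 : j + 1 - 1 = j := by ring
    rw [e1] at h1
    rw [e2] at h2
    rw [e3] at h3
    have h4 := G.w_three F j
    omega
  obtain ⟨a, b, hab⟩ := G.gen F hw0
  -- `F` has the same class as its translate
  have hT : IsExp (F * (((G.α 0).comp (deck φ : C(Yt φ, Yt φ))) ^ a *
      ((G.α 2).comp (deck φ : C(Yt φ, Yt φ))) ^ b)⁻¹) := by
    have := hab.comp (deck φ : C(Yt φ, Yt φ))
    rwa [comp_mul', hFT, comp_inv', comp_mul', comp_zpow', comp_zpow'] at this
  -- work in the quotient
  let Q := C(Yt φ, Circle) ⧸ expSub (Yt φ)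
  let cl : C(Yt φ, Circle) →* Q := QuotientGroup.mk' (expSub (Yt φ))
  have hcl : ∀ g : C(Yt φ, Circle), IsExp g ↔ cl g = 1 := by
    intro g
    rw [← mem_expSub, ← QuotientGroup.eq_one_iff g]
    rfl
  have h0 : cl F = cl (G.α 0) ^ a * cl (G.α 2) ^ b := by
    have := (hcl _).1 hab
    rw [map_mul, map_inv, mul_inv_eq_one, map_mul, map_zpow, map_zpow] at this
    exact this
  have h1 : cl F = cl (G.α 1) ^ a * cl (G.α 3) ^ b := by
    have := (hcl _).1 hT
    rw [map_mul, map_inv, mul_inv_eq_one, map_mul, map_zpow, map_zpow] at this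
    have e0 : cl ((G.α 0).comp (deck φ : C(Yt φ, Yt φ))) = cl (G.α 1) := by
      have h := (hcl _).1 (G.α_T 0)
      rw [map_mul, map_inv, mul_inv_eq_one] at h
      exact h
    have e2 : cl ((G.α 2).comp (deck φ : C(Yt φ, Yt φ))) = cl (G.α 3) := by
      have h := (hcl _).1 (G.α_T 2)
      rw [map_mul, map_inv, mul_inv_eq_one] at h
      exact h
    rw [e0, e2] at this
    exact this
  have r0 : cl (G.α 3) = (cl (G.α 0))⁻¹ := by
    have h := (hcl _).1 (G.α_three 0)
    rw [map_mul, zero_add] at h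
    exact eq_inv_of_mul_eq_one_right h
  have r1 : cl (G.α 4) = (cl (G.α 1))⁻¹ := by
    have h := (hcl _).1 (G.α_three 1)
    rw [map_mul] at h
    exact eq_inv_of_mul_eq_one_right h
  have r2 : cl (G.α 0) * cl (G.α 2) * cl (G.α 4) = 1 := by
    have h := (hcl _).1 G.α_two
    rwa [map_mul, map_mul] at h
  have r3 : cl (G.α 1) = cl (G.α 0) * cl (G.α 2) := by
    rw [r1, mul_inv_eq_one] at r2
    exact r2.symm
  have h2 : cl (G.α 0 ^ b * G.α 2 ^ (b - a)) = 1 := by
    rw [map_mul, map_zpow, map_zpow]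
    rw [h1, r3, r0] at h0
    have h3 : a • (Additive.ofMul (cl (G.α 0)) + Additive.ofMul (cl (G.α 2))) +
        b • (-Additive.ofMul (cl (G.α 0))) =
        a • Additive.ofMul (cl (G.α 0)) + b • Additive.ofMul (cl (G.α 2)) :=
      congrArg Additive.ofMul h0
    have h4 : b • Additive.ofMul (cl (G.α 0)) + (b - a) • Additive.ofMul (cl (G.α 2)) = 0 := by
      calc b • Additive.ofMul (cl (G.α 0)) + (b - a) • Additive.ofMul (cl (G.α 2)) =
          (a • Additive.ofMul (cl (G.α 0)) + b • Additive.ofMul (cl (G.α 2))) -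
          (a • (Additive.ofMul (cl (G.α 0)) + Additive.ofMul (cl (G.α 2))) +
          b • (-Additive.ofMul (cl (G.α 0)))) := by
            simp only [sub_zsmul, zsmul_add, zsmul_neg]
            abel
        _ = 0 := by rw [h3, sub_self]
    exact congrArg Additive.toMul h4
  obtain ⟨hb, hba⟩ := G.indep b (b - a) ((hcl _).2 h2)
  have ha : a = 0 := by omega
  subst hb
  subst ha
  have hFe : IsExp F := by
    rw [hcl, h0, zpow_zero, zpow_zero, mul_one]
  obtain ⟨u, hu⟩ := hFe
  -- `u ∘ T - u` is a constant integer multiple of `2 π`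
  have hd : ∀ q, ∃ m : ℤ, u (deck φ q) = u q + m * (2 * Real.pi) := by
    intro q
    apply Circle.exp_eq_exp.1
    rw [← hu, ← hu]
    rfl
  obtain ⟨n, hn⟩ : ∃ n : ℤ, ∀ q, u (deck φ q) = u q + n * (2 * Real.pi) := by
    obtain ⟨q₀⟩ : Nonempty (Yt φ) := inferInstance
    obtain ⟨n, hn⟩ := hd q₀
    refine ⟨n, fun q => ?_⟩
    have hpi := Real.pi_pos
    let k : Yt φ → ℝ := fun q => (u (deck φ q) - u q) / (2 * Real.pi)
    have hk : Continuous k := by
      have h5 : Continuous fun q => u (deck φ q) := u.continuous.comp (deck φ).continuous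
      exact (h5.sub u.continuous).div_const _
    have hkr : ∀ q, ∃ m : ℤ, k q = m := by
      intro q
      obtain ⟨m, hm⟩ := hd q
      refine ⟨m, ?_⟩
      change (u (deck φ q) - u q) / (2 * Real.pi) = m
      rw [hm]
      field_simp
      ring
    have hkc : k q = k q₀ := by
      by_contra hne
      have hp : _root_.IsPreconnected (range k) := isPreconnected_range hk
      have hint : range k ⊆ range ((↑) : ℤ → ℝ) := by
        rintro _ ⟨q, rfl⟩
        obtain ⟨m, hm⟩ := hkr q
        exact ⟨m, hm.symm⟩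
      have hnt : (range k).Nontrivial := ⟨_, mem_range_self q, _, mem_range_self q₀, hne⟩
      have h6 : ¬ (range k).Countable := by
        intro hc
        obtain ⟨x, hx, y, hy, hxy⟩ := hnt
        rcases lt_or_gt_of_ne hxy with h | h
        · have := (hc.mono (hp.Icc_subset hx hy)).le_aleph0
          rw [Cardinal.mk_Icc_real h] at this
          exact absurd this (not_le.2 Cardinal.aleph0_lt_continuum)
        · have := (hc.mono (hp.Icc_subset hy hx)).le_aleph0
          rw [Cardinal.mk_Icc_real h] at this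
          exact absurd this (not_le.2 Cardinal.aleph0_lt_continuum)
      exact h6 ((countable_range _).mono hint)
    have h7 : (u (deck φ q) - u q) / (2 * Real.pi) = (u (deck φ q₀) - u q₀) / (2 * Real.pi) := hkc
    rw [hn] at h7
    have h8 : u (deck φ q) - u q = n * (2 * Real.pi) := by
      have h9 := congrArg (fun x => x * (2 * Real.pi)) h7
      simp only [div_mul_cancel₀ _ (by positivity : (2 * Real.pi) ≠ 0)] at h9
      linarith
    linarith
  obtain ⟨v, hv⟩ := exists_descent φ (u - (n * (2 * Real.pi)) • height φ) (by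
    intro q
    have h1 := hn q
    have h2 : height φ (deck φ q) = height φ q + 1 := rfl
    simp only [ContinuousMap.sub_apply, ContinuousMap.smul_apply, smul_eq_mul, h1, h2]
    ring)
  refine ⟨n, v, fun y => ?_⟩
  have hsec : φ y = Circle.exp (2 * Real.pi * (Complex.arg (φ y) / (2 * Real.pi))) := by
    rw [mul_div_cancel₀ _ (by positivity : (2 * Real.pi) ≠ 0), Circle.exp_arg]
  let q : Yt φ := ⟨(y, Complex.arg (φ y) / (2 * Real.pi)), hsec⟩
  have h1 : f y = Circle.exp (u q) := hu q
  have h2 := hv q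
  have h3 : height φ q = Complex.arg (φ y) / (2 * Real.pi) := rfl
  simp only [ContinuousMap.sub_apply, ContinuousMap.smul_apply, smul_eq_mul, h3] at h2
  have h4 : u q = v y + n • (2 * Real.pi * (Complex.arg (φ y) / (2 * Real.pi))) := by
    have : q.1.1 = y := rfl
    rw [this] at h2
    rw [← h2, zsmul_eq_mul]
    ring
  rw [h1, h4, Circle.exp_add, Circle.exp_zsmul, ← hsec, mul_comm]

end Pool.Agent.S1S3
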