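import Pool.Agent.Helper83_S1S3.NoEmb

/-!
# Assembly of the final theorem, from the modules
-/

set_option autoImplicit false
set_option linter.unusedSectionVars false

open scoped Manifold ContDiff Topology
open CategoryTheory Set

noncomputable section

namespace Pool.Agent.S1S3

/-- the final statement -/
def FinalStatement : Prop :=
  ∃ (Y : Type) (_ : TopologicalSpace Y) (_ : ChartedSpace (ModelProd (Eu 1) (Eu 2)) Y),
    IsManifold ((𝓡 1).prod (𝓡 2)) ∞ Y ∧ CompactSpace Y ∧ ConnectedSpace Y ∧ T2Space Y ∧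
    Nonempty (HH 3 Y ≃+ ℤ) ∧
    (∃ (X : Type) (_ : TopologicalSpace X) (_ : ChartedSpace (ModelProd (Eu 1) (Eu 3)) X),
      IsManifold ((𝓡 1).prod (𝓡 3)) ∞ X ∧ CompactSpace X ∧ ConnectedSpace X ∧ T2Space X ∧
      (∀ i, Nonempty (HH i X ≃+ HH i (Circle × Sn 3))) ∧
      ∃ ι : C(Y, X), Manifold.IsSmoothEmbedding ((𝓡 1).prod (𝓡 2)) ((𝓡 1).prod (𝓡 3)) ∞ ι ∧
        Function.Surjective (Hm 1 ι)) ∧
    ∀ ι : C(Y, Circle × Sn 3),
      Manifold.IsSmoothEmbedding ((𝓡 1).prod (𝓡 2)) ((𝓡 1).prod (𝓡 3)) ∞ ι →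
        ¬ Function.Surjective (Hm 1 ι)

theorem final_of (hF : FunctStatement) (hW : WindStatement) (hPhi : PhiStatement)
    (hG : GFactsStatement) (hA : AlgStatement) (hSep : SepStatement) (hFlat : FlatStatement)
    (hC : CSplitStatement) (hB : BrouStatement) (hTop : TopStatement) (hSm : SmoothStatement)
    (hEmb : EmbStatement) (hX : HXStatement) (hY : HYStatement) (hS : HSurjStatement) :
    FinalStatement := by
  obtain ⟨Y, _, D₀, hY1, hY2, hY3⟩ := hTop 0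
  obtain ⟨X, _, D₁, hX1, hX2, hX3⟩ := hTop 1
  obtain ⟨cY, hcY⟩ := hSm 0 Y D₀
  obtain ⟨cX, hcX⟩ := hSm 1 X D₁
  obtain ⟨ι, hι1, hι2⟩ := hEmb Y X D₀ D₁ hcY hcX
  exact ⟨Y, inferInstance, cY, hcY.mfd, hY1, hY3, hY2, hY Y D₀,
    ⟨X, inferInstance, cX, hcX.mfd, hX1, hX3, hX2, hX X D₁, ι, hι2, hS Y X D₀ D₁ ι hι1⟩,
    fun ι' hι' => H83.noEmb_of hF hW hPhi hG hA hSep hFlat hC hB Y D₀ ι' hι'⟩

end Pool.Agent.S1S3
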