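import Pool.Agent.Helper83_S1S3.Stmts

/-!
# The Mayer–Vietoris sequence of a glued space
-/

set_option autoImplicit false
set_option linter.unusedSectionVars false

open scoped Manifold ContDiff Topology
open CategoryTheory Set

noncomputable section

namespace Pool.Agent.S1S3

variable {m : ℕ}

/-- injectivity of the tube parametrization -/
theorem tubeV_inj {p : ℕ} (hp : p = 2 ∨ p = 3) {ζ ζ' : Circle} (h : ζ ^ p = ζ' ^ p)
    {b b' : Eu (m + 2)} (hb : ‖b‖ ≤ 1 / 2) (hb' : ‖b'‖ ≤ 1 / 2)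
    (he : (tubeV ζ b : Eu (m + 3)) = tubeV ζ' b') : ζ = ζ' ∧ b = b' := by
  set u : Circle := ζ⁻¹ * ζ' with hu
  have hup : u ^ p = 1 := by
    rw [hu, mul_pow, ← h, ← mul_pow, inv_mul_cancel, one_pow]
  have h1 : (sg b : Eu (m + 3)) = rot (u : ℂ) (sg b') := by
    have := congrArg (rot ((ζ⁻¹ : Circle) : ℂ)) he
    unfold tubeV at this
    rw [rot_inv_rot, ← rot_mul, ← Circle.coe_mul] at this
    exact this
  have hre : Real.sqrt (1 - ‖b‖ ^ 2) =
      (u : ℂ).re * Real.sqrt (1 - ‖b'‖ ^ 2) - (u : ℂ).im * b' 0 := by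
    have h2 := congrArg (fun x : Eu (m + 3) => x 0) h1
    simp only [rot_apply_zero, sg_zero] at h2
    exact h2
  have hnorm : (u : ℂ).re ^ 2 + (u : ℂ).im ^ 2 = 1 := by
    have := Complex.sq_norm (u : ℂ)
    rw [Circle.norm_coe, Complex.normSq_apply] at this
    nlinarith
  have hs : 0 < Real.sqrt (1 - ‖b‖ ^ 2) := by
    apply Real.sqrt_pos.2
    nlinarith [norm_nonneg b]
  have hs' : 0 < Real.sqrt (1 - ‖b'‖ ^ 2) := by
    apply Real.sqrt_pos.2
    nlinarith [norm_nonneg b']
  have hsq : (Real.sqrt (1 - ‖b'‖ ^ 2)) ^ 2 = 1 - ‖b'‖ ^ 2 :=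
    Real.sq_sqrt (by nlinarith [norm_nonneg b'])
  have hb0 : b' 0 ^ 2 ≤ 1 / 4 := by
    have h3 : b' 0 ^ 2 ≤ ‖b'‖ ^ 2 := by
      rw [norm_sq_eq]
      have : 0 ≤ ∑ i : Fin m, b' i.succ.succ ^ 2 := Finset.sum_nonneg fun i _ => sq_nonneg _
      nlinarith [sq_nonneg (b' 1)]
    nlinarith [norm_nonneg b']
  have hu1 : u = 1 := by
    have hc : (u : ℂ) = 1 := by
      rcases hp with rfl | rfl
      · have h2 : (u : ℂ) ^ 2 = 1 := by
          rw [← Circle.coe_pow, hup, Circle.coe_one]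
        have h20 : ((u : ℂ) - 1) * ((u : ℂ) + 1) = 0 := by linear_combination h2
        rcases mul_eq_zero.1 h20 with h3 | h3
        · exact sub_eq_zero.1 h3
        · exfalso
          rw [eq_neg_of_add_eq_zero_left h3] at hre
          simp at hre
          linarith
      · have h2 : (u : ℂ) ^ 3 = 1 := by
          rw [← Circle.coe_pow, hup, Circle.coe_one]
        have h3 := congrArg Complex.im h2
        have h4 : (u : ℂ).im * (3 * (u : ℂ).re ^ 2 - (u : ℂ).im ^ 2) = 0 := by
          simp only [pow_succ, pow_zero, one_mul, Complex.mul_im, Complex.mul_re,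
            Complex.one_im] at h3
          linarith
        have h5 := congrArg Complex.re h2
        simp only [pow_succ, pow_zero, one_mul, Complex.mul_im, Complex.mul_re,
            Complex.one_re] at h5
        rcases mul_eq_zero.1 h4 with h6 | h6
        · have hre1 : (u : ℂ).re = 1 := by
            rw [h6] at h5
            have h7 : (u : ℂ).re ^ 3 = 1 := by nlinarith
            have h8 : ((u : ℂ).re - 1) * ((u : ℂ).re ^ 2 + (u : ℂ).re + 1) = 0 := by nlinarith
            rcases mul_eq_zero.1 h8 with h9 | h9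
            · linarith
            · nlinarith [sq_nonneg ((u : ℂ).re + 1 / 2)]
          exact Complex.ext hre1 h6
        · exfalso
          have h7 : (u : ℂ).re ^ 2 = 1 / 4 := by nlinarith
          have h8 : (u : ℂ).im ^ 2 = 3 / 4 := by nlinarith
          have h9 : (u : ℂ).re = -(1 / 2) := by
            have h10 : ((u : ℂ).re - 1 / 2) * ((u : ℂ).re + 1 / 2) = 0 := by nlinarith
            rcases mul_eq_zero.1 h10 with h11 | h11
            · exfalso
              have h12 : (u : ℂ).re = 1 / 2 := by linarith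
              rw [h12] at h5
              nlinarith
            · linarith
          rw [h9] at hre
          -- `√(1 - |b|²) + (1/2) √(1 - |b'|²) = - im u * b' 0 `
          have h13 : (Real.sqrt (1 - ‖b‖ ^ 2) + 1 / 2 * Real.sqrt (1 - ‖b'‖ ^ 2)) ^ 2 =
              (u : ℂ).im ^ 2 * b' 0 ^ 2 := by
            rw [hre]
            ring
          rw [h8] at h13
          have hsq2 : (Real.sqrt (1 - ‖b‖ ^ 2)) ^ 2 = 1 - ‖b‖ ^ 2 :=
            Real.sq_sqrt (by nlinarith [norm_nonneg b])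
          nlinarith [mul_pos hs hs', norm_nonneg b, norm_nonneg b']
    exact Circle.ext hc
  have hζ : ζ = ζ' := by
    have : ζ * u = ζ' := by rw [hu, mul_inv_cancel_left]
    rw [← this, hu1, mul_one]
  refine ⟨hζ, ?_⟩
  rw [hu1, Circle.coe_one, rot_one] at h1
  ext i
  have := congrArg (fun x : Eu (m + 3) => x i.succ) h1
  simpa [sg_succ] using this

/-- the closed tube -/
abbrev CTube (m : ℕ) : Type := Circle × Metric.closedBall (0 : Eu (m + 2)) (1 / 2)

/-- the parametrization of the closed tube -/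
def ctubeMap (p m : ℕ) (q : CTube m) : Circle × Sn (m + 2) :=
  (q.1 ^ p, tubeS q.1 q.2 (by
    have := mem_closedBall_zero_iff.1 q.2.2
    linarith))

theorem ctube_isEmbedding (p m : ℕ) (hp : p = 2 ∨ p = 3) :
    Topology.IsEmbedding (ctubeMap p m) := by
  have hc : Continuous (ctubeMap p m) := by
    unfold ctubeMap
    refine Continuous.prodMk (by fun_prop) ?_
    refine Continuous.subtype_mk ?_ _
    exact cont_tubeV continuous_fst (continuous_subtype_val.comp continuous_snd)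
  have hi : Function.Injective (ctubeMap p m) := by
    intro q q' h
    have h1 : q.1 ^ p = q'.1 ^ p := congrArg Prod.fst h
    have h2 : (tubeV q.1 (q.2 : Eu (m + 2)) : Eu (m + 3)) = tubeV q'.1 (q'.2 : Eu (m + 2)) :=
      congrArg (fun x : Circle × Sn (m + 2) => (x.2 : Eu (m + 3))) h
    obtain ⟨h3, h4⟩ := tubeV_inj hp h1 (mem_closedBall_zero_iff.1 q.2.2)
      (mem_closedBall_zero_iff.1 q'.2.2) h2
    exact Prod.ext h3 (Subtype.ext h4)
  exact (hc.isClosedEmbedding hi).isEmbedding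

/-- the neck is embedded in the piece -/
theorem neckMap_isEmbedding (p m : ℕ) (hp : p = 2 ∨ p = 3) :
    Topology.IsEmbedding (neckMap p m hp) := by
  let i : Neck m → CTube m := fun q => (q.1.1, ⟨q.1.2, by
    rw [mem_closedBall_zero_iff]
    exact q.2.2.le⟩)
  have hic : Continuous i := by
    refine Continuous.prodMk (by fun_prop) (Continuous.subtype_mk (by fun_prop) _)
  have hi : Topology.IsEmbedding i := by
    have h1 : Topology.IsEmbedding ((fun q : CTube m => (q.1, (q.2 : Eu (m + 2)))) ∘ i) :=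
      Topology.IsEmbedding.subtypeVal
    exact Topology.IsEmbedding.of_comp hic (by fun_prop) h1
  have h2 : Topology.IsEmbedding ((Subtype.val : Piece p m → Circle × Sn (m + 2)) ∘
      neckMap p m hp) := (ctube_isEmbedding p m hp).comp hi
  exact Topology.IsEmbedding.of_comp (neckMap p m hp).continuous continuous_subtype_val h2

/-! ### homeomorphisms -/

/-- a homeomorphism induces an isomorphism in homology -/
def HmE (hF : FunctStatement) (i : ℕ) {X Y : Type} [TopologicalSpace X] [TopologicalSpace Y]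
    (h : X ≃ₜ Y) : HH i X ≃+ HH i Y :=
  { Hm i (h : C(X, Y)) with
    invFun := Hm i (h.symm : C(Y, X))
    left_inv := fun x => by
      have h1 : (Hm i (h.symm : C(Y, X))).comp (Hm i (h : C(X, Y))) = AddMonoidHom.id _ := by
        rw [← hF.comp, ← hF.id]
        congr 1
        ext x
        simp
      exact DFunLike.congr_fun h1 x
    right_inv := fun x => by
      have h1 : (Hm i (h : C(X, Y))).comp (Hm i (h.symm : C(Y, X))) = AddMonoidHom.id _ := by
        rw [← hF.comp, ← hF.id]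
        congr 1
        ext x
        simp
      exact DFunLike.congr_fun h1 x }

theorem HmE_apply (hF : FunctStatement) (i : ℕ) {X Y : Type} [TopologicalSpace X]
    [TopologicalSpace Y] (h : X ≃ₜ Y) (x : HH i X) : HmE hF i h x = Hm i (h : C(X, Y)) x := rfl

theorem Hm_comp_apply (hF : FunctStatement) {X Y Z : Type} [TopologicalSpace X]
    [TopologicalSpace Y] [TopologicalSpace Z] (i : ℕ) (f : C(X, Y)) (g : C(Y, Z)) (x : HH i X) :
    Hm i g (Hm i f x) = Hm i (g.comp f) x := by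
  rw [hF.comp]
  rfl

section Glued

variable {Z : Type} [TopologicalSpace Z] (D : Glued m Z)

/-- the first piece -/
def Glued.hA : Piece 2 m ≃ₜ range D.j₂ := D.emb₂.isEmbedding.toHomeomorph

/-- the second piece -/
def Glued.hB : Piece 3 m ≃ₜ range D.j₃ := D.emb₃.isEmbedding.toHomeomorph

/-- the inclusion of the first piece -/
def Glued.c₂ : C(Piece 2 m, Z) := ⟨D.j₂, D.emb₂.continuous⟩

/-- the inclusion of the second piece -/
def Glued.c₃ : C(Piece 3 m, Z) := ⟨D.j₃, D.emb₃.continuous⟩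

/-- the neck in the second piece -/
def neck3 (m : ℕ) : C(Neck m, Piece 3 m) :=
  (neckMap 3 m (Or.inr rfl)).comp (twN m : C(Neck m, Neck m))

/-- the neck in the first piece -/
def neck2 (m : ℕ) : C(Neck m, Piece 2 m) := neckMap 2 m (Or.inl rfl)

theorem Glued.neck_eq (q : Neck m) : D.j₂ (neck2 m q) = D.j₃ (neck3 m q) :=
  (D.glue _ _).2 ⟨q, rfl, rfl⟩

theorem Glued.range_neck : range (D.j₂ ∘ neck2 m) = range D.j₂ ∩ range D.j₃ := by
  ext z
  constructor
  · rintro ⟨q, rfl⟩
    exact ⟨⟨_, rfl⟩, ⟨_, (D.neck_eq q).symm⟩⟩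
  · rintro ⟨⟨a, rfl⟩, ⟨b, hb⟩⟩
    obtain ⟨q, rfl, rfl⟩ := (D.glue a b).1 hb.symm
    exact ⟨q, rfl⟩

/-- the neck is the intersection -/
def Glued.hN : Neck m ≃ₜ ↥(range D.j₂ ∩ range D.j₃) :=
  ((D.emb₂.isEmbedding.comp (neckMap_isEmbedding 2 m (Or.inl rfl))).toHomeomorph).trans
    (Homeomorph.setCongr D.range_neck)

theorem Glued.hN_val (q : Neck m) : ((D.hN q : ↥(range D.j₂ ∩ range D.j₃)) : Z) =
    D.j₂ (neck2 m q) := rfl

/-- the first map of the sequence -/
def gPm (m i : ℕ) : HH i (Neck m) →+ HH i (Piece 2 m) × HH i (Piece 3 m) :=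
  (Hm i (neck2 m)).prod (Hm i (neck3 m))

/-- the second map of the sequence -/
def Glued.gQ (i : ℕ) : HH i (Piece 2 m) × HH i (Piece 3 m) →+ HH i Z :=
  (Hm i D.c₂).coprod (-(Hm i D.c₃))

theorem Glued.gQ_apply (i : ℕ) (a : HH i (Piece 2 m)) (b : HH i (Piece 3 m)) :
    D.gQ i (a, b) = Hm i D.c₂ a - Hm i D.c₃ b := by
  simp [Glued.gQ, sub_eq_add_neg]

/-- the Mayer–Vietoris sequence of a glued space -/
theorem Glued.mv (hF : FunctStatement) (hMV : MVStatement) :
    ∃ δ : ∀ i : ℕ, HH (i + 1) Z →+ HH i (Neck m),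
      (∀ i, Function.Exact (gPm m i) (D.gQ i)) ∧ (∀ i, Function.Exact (D.gQ (i + 1)) (δ i)) ∧
      (∀ i, Function.Exact (δ i) (gPm m i)) ∧ Function.Surjective (D.gQ 0) := by
  obtain ⟨δ, hδ, -⟩ := hMV
  obtain ⟨h1, h2, h3, h4⟩ := hδ Z (range D.j₂) (range D.j₃) D.emb₂.isOpen_range
    D.emb₃.isOpen_range D.cover
  have hp : ∀ i (x : HH i (Neck m)), mvPair (range D.j₂) (range D.j₃) i (HmE hF i D.hN x) =
      (HmE hF i D.hA (gPm m i x).1, HmE hF i D.hB (gPm m i x).2) := by
    intro i x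
    refine Prod.ext ?_ ?_
    · change Hm i _ (Hm i _ x) = Hm i _ (Hm i (neck2 m) x)
      rw [Hm_comp_apply hF, Hm_comp_apply hF]
      rfl
    · change Hm i _ (Hm i _ x) = Hm i _ (Hm i (neck3 m) x)
      rw [Hm_comp_apply hF, Hm_comp_apply hF]
      congr 2
      ext q
      exact D.neck_eq q
  have hq : ∀ i (x : HH i (Piece 2 m) × HH i (Piece 3 m)), D.gQ i x =
      mvDiff (range D.j₂) (range D.j₃) i (HmE hF i D.hA x.1, HmE hF i D.hB x.2) := by
    rintro i ⟨a, b⟩
    rw [D.gQ_apply]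
    change _ = Hm i _ (Hm i _ a) + (-(Hm i _)) (Hm i _ b)
    rw [AddMonoidHom.neg_apply, Hm_comp_apply hF, Hm_comp_apply hF, ← sub_eq_add_neg]
    rfl
  refine ⟨fun i => (HmE hF i D.hN).symm.toAddMonoidHom.comp (δ Z (range D.j₂) (range D.j₃) i),
    fun i => ?_, fun i => ?_, fun i => ?_, ?_⟩
  · intro x
    rw [hq, h1 i]
    constructor
    · rintro ⟨y, hy⟩
      obtain ⟨y', rfl⟩ := (HmE hF i D.hN).surjective y
      rw [hp] at hy
      refine ⟨y', Prod.ext ?_ ?_⟩
      · exact (HmE hF i D.hA).injective (congrArg Prod.fst hy)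
      · exact (HmE hF i D.hB).injective (congrArg Prod.snd hy)
    · rintro ⟨y, rfl⟩
      exact ⟨HmE hF i D.hN y, hp i y⟩
  · intro x
    have : ((HmE hF i D.hN).symm.toAddMonoidHom.comp (δ Z (range D.j₂) (range D.j₃) i)) x = 0 ↔
        δ Z (range D.j₂) (range D.j₃) i x = 0 := by
      change (HmE hF i D.hN).symm (δ Z (range D.j₂) (range D.j₃) i x) = 0 ↔ _
      exact (HmE hF i D.hN).symm.map_eq_zero_iff
    rw [this, h2 i]
    constructor
    · rintro ⟨⟨a, b⟩, rfl⟩
      obtain ⟨a', rfl⟩ := (HmE hF (i + 1) D.hA).surjective a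
      obtain ⟨b', rfl⟩ := (HmE hF (i + 1) D.hB).surjective b
      exact ⟨(a', b'), hq (i + 1) (a', b')⟩
    · rintro ⟨y, rfl⟩
      exact ⟨_, (hq (i + 1) y).symm⟩
  · intro x
    have e1 : gPm m i x = 0 ↔ mvPair (range D.j₂) (range D.j₃) i (HmE hF i D.hN x) = 0 := by
      rw [hp, Prod.ext_iff, Prod.ext_iff]
      change _ ↔ HmE hF i D.hA _ = 0 ∧ HmE hF i D.hB _ = 0
      rw [(HmE hF i D.hA).map_eq_zero_iff, (HmE hF i D.hB).map_eq_zero_iff]
      rfl
    rw [e1, h3 i]
    constructor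
    · rintro ⟨y, hy⟩
      refine ⟨y, ?_⟩
      change (HmE hF i D.hN).symm _ = x
      rw [hy, AddEquiv.symm_apply_apply]
    · rintro ⟨y, rfl⟩
      refine ⟨y, ?_⟩
      change _ = HmE hF i D.hN ((HmE hF i D.hN).symm _)
      rw [AddEquiv.apply_symm_apply]
  · intro x
    obtain ⟨⟨a, b⟩, rfl⟩ := h4 x
    obtain ⟨a', rfl⟩ := (HmE hF 0 D.hA).surjective a
    obtain ⟨b', rfl⟩ := (HmE hF 0 D.hB).surjective b
    exact ⟨(a', b'), hq 0 (a', b')⟩

end Glued

end Pool.Agent.S1S3
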