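import Pool.Agent.Helper83_S1S3.Defs

/-!
# Module statements: singular homology
-/

set_option autoImplicit false
set_option linter.unusedSectionVars false

open scoped Manifold ContDiff Topology
open CategoryTheory Set

noncomputable section

namespace Pool.Agent.S1S3

/-- the restriction of a continuous map to subsets -/
def resC {X Y : Type} [TopologicalSpace X] [TopologicalSpace Y] (f : C(X, Y)) {A : Set X}
    {B : Set Y} (h : MapsTo f A B) : C(A, B) :=
  ⟨h.restrict, f.continuous.continuousOn.mapsToRestrict h⟩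

/-- the inclusion of a subset into a bigger one -/
def inclC {X : Type} [TopologicalSpace X] {A B : Set X} (h : A ⊆ B) : C(A, B) :=
  ⟨Set.inclusion h, continuous_inclusion h⟩

/-- the inclusion of a subset into the space -/
def valC {X : Type} [TopologicalSpace X] (A : Set X) : C(A, X) :=
  ⟨Subtype.val, continuous_subtype_val⟩

/-- `H_i(A ∩ B) → H_i(A) × H_i(B)` -/
def mvPair {X : Type} [TopologicalSpace X] (A B : Set X) (i : ℕ) :
    HH i ↥(A ∩ B) →+ (HH i ↥A × HH i ↥B) :=
  (Hm i (inclC inter_subset_left)).prod (Hm i (inclC inter_subset_right))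

/-- `H_i(A) × H_i(B) → H_i(X)`, `(a, b) ↦ a - b` -/
def mvDiff {X : Type} [TopologicalSpace X] (A B : Set X) (i : ℕ) :
    (HH i ↥A × HH i ↥B) →+ HH i X :=
  (Hm i (valC A)).coprod (-(Hm i (valC B)))

/-- functoriality and homotopy invariance -/
structure FunctStatement : Prop where
  id : ∀ (i : ℕ) (X : Type) [TopologicalSpace X], Hm i (ContinuousMap.id X) = AddMonoidHom.id _
  comp : ∀ (i : ℕ) (X Y Z : Type) [TopologicalSpace X] [TopologicalSpace Y]
    [TopologicalSpace Z] (f : C(X, Y)) (g : C(Y, Z)), Hm i (g.comp f) = (Hm i g).comp (Hm i f)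
  homotopy : ∀ (i : ℕ) (X Y : Type) [TopologicalSpace X] [TopologicalSpace Y] (f g : C(X, Y)),
    f.Homotopic g → Hm i f = Hm i g

/-- module H0: degree zero and contractible spaces -/
structure H0Statement : Prop where
  bij : ∀ (X Y : Type) [TopologicalSpace X] [TopologicalSpace Y] [PathConnectedSpace X]
    [PathConnectedSpace Y] (f : C(X, Y)), Function.Bijective (Hm 0 f)
  int : ∀ (X : Type) [TopologicalSpace X] [PathConnectedSpace X], Nonempty (HH 0 X ≃+ ℤ)
  contr : ∀ (X : Type) [TopologicalSpace X] [ContractibleSpace X] (i : ℕ), i ≠ 0 →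
    Subsingleton (HH i X)
  empty : ∀ (X : Type) [TopologicalSpace X] [IsEmpty X] (i : ℕ), Subsingleton (HH i X)

/-- module MV: the Mayer–Vietoris sequence of an open cover by two sets, with naturality of the
connecting homomorphism -/
def MVStatement : Prop :=
  ∃ δ : ∀ (X : Type) [TopologicalSpace X] (A B : Set X) (i : ℕ),
      HH (i + 1) X →+ HH i ↥(A ∩ B),
    (∀ (X : Type) [TopologicalSpace X] (A B : Set X), IsOpen A → IsOpen B → A ∪ B = univ →
      (∀ i, Function.Exact (mvPair A B i) (mvDiff A B i)) ∧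
      (∀ i, Function.Exact (mvDiff A B (i + 1)) (δ X A B i)) ∧
      (∀ i, Function.Exact (δ X A B i) (mvPair A B i)) ∧
      Function.Surjective (mvDiff A B 0)) ∧
    (∀ (X Y : Type) [TopologicalSpace X] [TopologicalSpace Y] (A B : Set X) (C D : Set Y),
      IsOpen A → IsOpen B → A ∪ B = univ → IsOpen C → IsOpen D → C ∪ D = univ →
      ∀ (f : C(X, Y)) (_ : MapsTo f A C) (_ : MapsTo f B D)
        (h : MapsTo f (A ∩ B) (C ∩ D)) (i : ℕ) (x : HH (i + 1) X),
        δ Y C D i (Hm (i + 1) f x) = Hm i (resC f h) (δ X A B i x))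

/-- `z ↦ z ^ n` on the circle -/
def powC (n : ℤ) : C(Circle, Circle) := ⟨fun z => z ^ n, continuous_zpow n⟩

/-- module WIND: the winding number of singular one-cycles in the circle -/
def WindStatement : Prop :=
  ∃ W : HH 1 Circle →+ ℤ, Function.Surjective W ∧
    ∀ (n : ℤ) (x : HH 1 Circle), W (Hm 1 (powC n) x) = n * W x

/-- module SPH: the homology of spheres -/
structure SphStatement : Prop where
  top : ∀ n : ℕ, n ≠ 0 → Nonempty (HH n (Sn n) ≃+ ℤ)
  zero : ∀ n i : ℕ, n ≠ 0 → i ≠ 0 → i ≠ n → Subsingleton (HH i (Sn n))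
  pathConnected : ∀ n : ℕ, n ≠ 0 → PathConnectedSpace (Sn n)
  circle : Nonempty (HH 1 Circle ≃+ ℤ)
  circle_zero : ∀ i : ℕ, 2 ≤ i → Subsingleton (HH i Circle)

/-- module WANG: the exact sequence of a mapping torus -/
def WangStatement : Prop :=
  ∀ (X Z : Type) [TopologicalSpace X] [TopologicalSpace Z] (φ : C(ℝ × Z, X)) (g : Z ≃ₜ Z)
    (π : C(X, Circle)),
    (∀ θ z, π (φ (θ, z)) = Circle.exp (2 * Real.pi * θ)) →
    (∀ θ z, φ (θ + 1, g z) = φ (θ, z)) →
    Function.Surjective φ →
    (∀ a : ℝ, Topology.IsOpenEmbedding fun q : (Ioo a (a + 1)) × Z => φ (q.1, q.2)) →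
    ∃ D : ∀ i : ℕ, HH (i + 1) X →+ HH i Z,
      (∀ i, Function.Exact (AddMonoidHom.id (HH i Z) - Hm i (g : C(Z, Z)))
        (Hm i (φ.comp ⟨fun z => ((0 : ℝ), z), by fun_prop⟩))) ∧
      (∀ i, Function.Exact (Hm (i + 1) (φ.comp ⟨fun z => ((0 : ℝ), z), by fun_prop⟩)) (D i)) ∧
      (∀ i, Function.Exact (D i) (AddMonoidHom.id (HH i Z) - Hm i (g : C(Z, Z)))) ∧
      Function.Surjective (Hm 0 (φ.comp ⟨fun z => ((0 : ℝ), z), by fun_prop⟩))

end Pool.Agent.S1S3
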