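import Pool.Agent.Helper83_S1S3.Exp

/-!
# The non-embedding theorem, from the modules
-/

set_option autoImplicit false
set_option linter.unusedSectionVars false

open scoped Manifold ContDiff Topology
open CategoryTheory Set

noncomputable section

namespace Pool.Agent.S1S3.H83

variable {Y : Type} [TopologicalSpace Y]

/-- a point of the three-sphere -/
def ptS (n : ℕ) : Sn n := ⟨EuclideanSpace.single 0 1, by simp⟩

theorem n_unit (hF : FunctStatement) (hW : WindStatement) {ι : C(Y, Circle × Sn 3)}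
    (hs : Function.Surjective (Hm 1 ι)) {φ : C(Y, Circle)} {n : ℤ} {v : C(Y, ℝ)}
    (h : ∀ y, (ι y).1 = φ y ^ n * Circle.exp (v y)) : n = 1 ∨ n = -1 := by
  obtain ⟨W, hWs, hWp⟩ := hW
  let fs : C(Circle × Sn 3, Circle) := ⟨Prod.fst, continuous_fst⟩
  let il : C(Circle, Circle × Sn 3) := ⟨fun z => (z, ptS 3), by fun_prop⟩
  have h1 : Function.Surjective (Hm 1 fs) := by
    intro x
    refine ⟨Hm 1 il x, ?_⟩
    have h2 : (Hm 1 fs).comp (Hm 1 il) = AddMonoidHom.id _ := by
      rw [← hF.comp]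
      exact hF.id 1 Circle
    exact DFunLike.congr_fun h2 x
  have h3 : Hm 1 (fs.comp ι) = (Hm 1 (powC n)).comp (Hm 1 φ) := by
    rw [← hF.comp]
    refine hF.homotopy _ _ _ _ _ ⟨?_⟩
    exact
      { toFun := fun q => φ q.2 ^ n * Circle.exp ((1 - (q.1 : ℝ)) * v q.2)
        continuous_toFun := by
          have : Continuous fun q : unitInterval × Y => φ q.2 ^ n :=
            (continuous_zpow n).comp (φ.continuous.comp continuous_snd)
          fun_prop
        map_zero_left := by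
          intro y
          have h0 : ((0 : unitInterval) : ℝ) = 0 := rfl
          change φ y ^ n * Circle.exp ((1 - ((0 : unitInterval) : ℝ)) * v y) = (ι y).1
          rw [h0, sub_zero, one_mul]
          exact (h y).symm
        map_one_left := by
          intro y
          simp [powC] }
  obtain ⟨x₀, hx₀⟩ := hWs 1
  obtain ⟨a, ha⟩ := h1 x₀
  obtain ⟨b, hb⟩ := hs a
  have h4 : Hm 1 (fs.comp ι) b = x₀ := by
    rw [hF.comp, AddMonoidHom.comp_apply, hb, ha]
  rw [h3, AddMonoidHom.comp_apply] at h4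
  have h5 := hWp n (Hm 1 φ b)
  rw [h4, hx₀] at h5
  exact Int.isUnit_iff.1 (IsUnit.of_mul_eq_one _ h5.symm)

/-- translation of `ℝ × S³` -/
def trX (n : ℤ) : XT ≃ₜ XT := (Homeomorph.addRight (n : ℝ)).prodCongr (Homeomorph.refl _)

theorem trX_apply (n : ℤ) (q : XT) : trX n q = (q.1 + n, q.2) := rfl

theorem covX_trX (n : ℤ) (q : XT) : covX (trX n q) = covX q := by
  simp only [covX, ContinuousMap.coe_mk, trX_apply]
  rw [mul_add, Circle.exp_add, exp_two_pi_int, mul_one]

/-- the identification of the cover of `Y` with the preimage of the image of `Y` -/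
theorem exists_homeo {ι : C(Y, Circle × Sn 3)} (hι : Topology.IsEmbedding ι) {φ : C(Y, Circle)}
    {n : ℤ} (hn : n = 1 ∨ n = -1) {v : C(Y, ℝ)}
    (h : ∀ y, (ι y).1 = φ y ^ n * Circle.exp (v y)) :
    ∃ e : Yt φ ≃ₜ (covX ⁻¹' range ι : Set XT),
      ∀ q, ((e q : (covX ⁻¹' range ι : Set XT)) : XT) =
        (n * q.1.2 + v q.1.1 / (2 * Real.pi), (ι q.1.1).2) := by
  have hpi := Real.pi_pos
  have hnn : (n : ℝ) * n = 1 := by
    rcases hn with rfl | rfl <;> simp
  have hcov : ∀ q : Yt φ, covX (n * q.1.2 + v q.1.1 / (2 * Real.pi), (ι q.1.1).2) = ι q.1.1 := by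
    intro q
    refine Prod.ext ?_ rfl
    change Circle.exp (2 * Real.pi * (n * q.1.2 + v q.1.1 / (2 * Real.pi))) = _
    rw [h, q.2]
    have : 2 * Real.pi * (n * q.1.2 + v q.1.1 / (2 * Real.pi)) =
        n • (2 * Real.pi * q.1.2) + v q.1.1 := by
      rw [zsmul_eq_mul]
      field_simp
    rw [this, Circle.exp_add, Circle.exp_zsmul]
  let hom := hι.toHomeomorph
  let inv : (covX ⁻¹' range ι : Set XT) → Yt φ := fun x =>
    ⟨(hom.symm ⟨covX x, x.2⟩, n * ((x : XT).1 - v (hom.symm ⟨covX x, x.2⟩) / (2 * Real.pi))), by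
      have h1 : ι (hom.symm ⟨covX x, x.2⟩) = covX x :=
        congrArg Subtype.val (hom.apply_symm_apply ⟨covX x, x.2⟩)
      have h2 := h (hom.symm ⟨covX x, x.2⟩)
      rw [h1] at h2
      change Circle.exp (2 * Real.pi * (x : XT).1) = _ at h2
      set y := hom.symm ⟨covX x, x.2⟩ with hy
      have h3 : φ y = (φ y ^ n) ^ n := by
        rw [← zpow_mul]
        rcases hn with rfl | rfl <;> simp
      have h4 : φ y ^ n = Circle.exp (2 * Real.pi * (x : XT).1 - v y) := by
        rw [Circle.exp_sub, h2]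
        simp
      change φ y = _
      rw [h3, h4, ← Circle.exp_zsmul, zsmul_eq_mul]
      congr 1
      field_simp⟩
  refine ⟨{ toFun := fun q => ⟨(n * q.1.2 + v q.1.1 / (2 * Real.pi), (ι q.1.1).2),
              q.1.1, (hcov q).symm⟩
            invFun := inv
            left_inv := ?_
            right_inv := ?_
            continuous_toFun := ?_
            continuous_invFun := ?_ }, fun q => rfl⟩
  · intro q
    have h1 : ∀ (z) (hz : z = ι q.1.1) (hz' : z ∈ range ι), hom.symm ⟨z, hz'⟩ = q.1.1 := by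
      rintro _ rfl hz'
      exact hom.symm_apply_apply q.1.1
    have h2 := h1 _ (hcov q) ⟨q.1.1, (hcov q).symm⟩
    apply Subtype.ext
    refine Prod.ext h2 ?_
    change (n : ℝ) * ((n * q.1.2 + v q.1.1 / (2 * Real.pi)) -
      v (hom.symm ⟨_, _⟩) / (2 * Real.pi)) = _
    rw [h2]
    calc (n : ℝ) * ((n * q.1.2 + v q.1.1 / (2 * Real.pi)) - v q.1.1 / (2 * Real.pi)) =
        (n * n) * q.1.2 := by ring
      _ = q.1.2 := by rw [hnn, one_mul]
  · intro x
    apply Subtype.ext
    have h1 : ι (hom.symm ⟨covX x, x.2⟩) = covX x :=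
      congrArg Subtype.val (hom.apply_symm_apply ⟨covX x, x.2⟩)
    refine Prod.ext ?_ ?_
    · change (n : ℝ) * (n * ((x : XT).1 - v (hom.symm ⟨covX x, x.2⟩) / (2 * Real.pi))) +
        v (hom.symm ⟨covX x, x.2⟩) / (2 * Real.pi) = (x : XT).1
      rw [← mul_assoc, hnn]
      ring
    · change (ι (hom.symm ⟨covX x, x.2⟩)).2 = (x : XT).2
      rw [h1]
      rfl
  · refine Continuous.subtype_mk ?_ _
    fun_prop
  · refine Continuous.subtype_mk ?_ _
    have h1 : Continuous fun x : (covX ⁻¹' range ι : Set XT) => hom.symm ⟨covX x, x.2⟩ := by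
      refine hom.symm.continuous.comp ?_
      exact Continuous.subtype_mk (by fun_prop) _
    have h2 : Continuous fun x : (covX ⁻¹' range ι : Set XT) => (x : XT).1 := by fun_prop
    refine h1.prodMk ?_
    exact continuous_const.mul (h2.sub ((v.continuous.comp h1).div_const _))

/-! ### gluing and extension -/

/-- gluing over a closed cover by two sets -/
theorem exists_glue {X Z : Type} [TopologicalSpace X] [TopologicalSpace Z] {U V : Set X}
    (hU : IsClosed U) (hV : IsClosed V) (hUV : U ∪ V = univ) (f : C(U, Z)) (g : C(V, Z))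
    (h : ∀ x (hx : x ∈ U) (hx' : x ∈ V), f ⟨x, hx⟩ = g ⟨x, hx'⟩) :
    ∃ F : C(X, Z), (∀ x : U, F x = f x) ∧ ∀ x : V, F x = g x := by
  classical
  have hmem : ∀ x, x ∉ U → x ∈ V := fun x hx => by
    have : x ∈ U ∪ V := hUV ▸ mem_univ x
    exact this.resolve_left hx
  let F : X → Z := fun x => if hx : x ∈ U then f ⟨x, hx⟩ else g ⟨x, hmem x hx⟩
  have hFU : ∀ x : U, F x = f x := fun x => by
    change (if hx : (x : X) ∈ U then f ⟨x, hx⟩ else g ⟨x, hmem x hx⟩) = f x
    rw [dif_pos x.2]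
  have hFV : ∀ x : V, F x = g x := fun x => by
    change (if hx : (x : X) ∈ U then f ⟨x, hx⟩ else g ⟨x, hmem x hx⟩) = g x
    by_cases hx : (x : X) ∈ U
    · rw [dif_pos hx]
      exact h _ hx x.2
    · rw [dif_neg hx]
  have hcU : ContinuousOn F U := by
    rw [continuousOn_iff_continuous_domRestrict]
    have : U.domRestrict F = f := funext hFU
    rw [this]
    exact f.continuous
  have hcV : ContinuousOn F V := by
    rw [continuousOn_iff_continuous_domRestrict]
    have : V.domRestrict F = g := funext hFV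
    rw [this]
    exact g.continuous
  have hc : ContinuousOn F (U ∪ V) := hcU.union_of_isClosed hcV hU hV
  rw [hUV] at hc
  exact ⟨⟨F, continuousOn_univ.1 hc⟩, hFU, hFV⟩

/-- the map of `P` into a set containing `K` -/
def intoC {P X : Type} [TopologicalSpace P] [TopologicalSpace X] {K U : Set X} (e : P ≃ₜ K)
    (hK : K ⊆ U) : C(P, U) :=
  ⟨fun p => ⟨e p, hK (e p).2⟩, by fun_prop⟩

/-- the map of `P` into the space -/
def outC {P X : Type} [TopologicalSpace P] [TopologicalSpace X] {K : Set X} (e : P ≃ₜ K) :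
    C(P, X) :=
  ⟨fun p => e p, by fun_prop⟩

theorem exists_real_ext {P X : Type} [TopologicalSpace P] [TopologicalSpace X] [NormalSpace X]
    {K : Set X} (hK : IsClosed K) (e : P ≃ₜ K) (u : C(P, ℝ)) :
    ∃ u' : C(X, ℝ), u'.comp (outC e) = u := by
  obtain ⟨u', hu'⟩ := ContinuousMap.exists_restrict_eq hK (u.comp (e.symm : C(K, P)))
  refine ⟨u', ContinuousMap.ext fun p => ?_⟩
  have h := DFunLike.congr_fun hu' (e p)
  simpa [outC] using h

/-- a circle-valued function whose class extends extends -/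
theorem exists_exact_ext {P X : Type} [TopologicalSpace P] [TopologicalSpace X] [NormalSpace X]
    {K U : Set X} (hK : IsClosed K) (hKU : K ⊆ U) (e : P ≃ₜ K) (f : C(P, Circle))
    (A : C(U, Circle)) (h : IsExp (f * (A.comp (intoC e hKU))⁻¹)) :
    ∃ A' : C(U, Circle), A'.comp (intoC e hKU) = f := by
  obtain ⟨u, hu⟩ := h.eq
  obtain ⟨u', hu'⟩ := exists_real_ext hK e u
  refine ⟨A * expC (u'.comp (valC U)), ?_⟩
  have h1 : f = A.comp (intoC e hKU) * expC u := by
    rw [← hu]
    ext p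
    simp
  rw [h1, ← hu']
  ext p
  rfl

/-! ### the group of classes -/

section Group

variable {P : Type} [TopologicalSpace P]

/-- classes of circle-valued functions modulo functions with a logarithm -/
abbrev Cls (P : Type) [TopologicalSpace P] : Type := Additive (C(P, Circle) ⧸ expSub P)

/-- the class of a function -/
def cls (f : C(P, Circle)) : Cls P := Additive.ofMul (QuotientGroup.mk' (expSub P) f)

theorem cls_mul (f g : C(P, Circle)) : cls (f * g) = cls f + cls g := rfl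

theorem cls_inv (f : C(P, Circle)) : cls f⁻¹ = - cls f := rfl

theorem cls_zpow (f : C(P, Circle)) (n : ℤ) : cls (f ^ n) = n • cls f := rfl

theorem cls_one : cls (1 : C(P, Circle)) = 0 := rfl

theorem cls_eq_zero {f : C(P, Circle)} : cls f = 0 ↔ IsExp f := by
  rw [← mem_expSub, ← QuotientGroup.eq_one_iff f]
  rfl

theorem cls_eq {f g : C(P, Circle)} : cls f = cls g ↔ IsExp (f * g⁻¹) := by
  rw [← cls_eq_zero, cls_mul, cls_inv, ← sub_eq_add_neg, sub_eq_zero]

theorem cls_surj (x : Cls P) : ∃ f, cls f = x := by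
  obtain ⟨f, hf⟩ := QuotientGroup.mk'_surjective (expSub P) (Additive.toMul x)
  exact ⟨f, congrArg Additive.ofMul hf⟩

theorem cls_prod {ι : Type} (s : Finset ι) (f : ι → C(P, Circle)) :
    cls (∏ i ∈ s, f i) = ∑ i ∈ s, cls (f i) := by
  classical
  induction s using Finset.induction_on with
  | empty => rfl
  | insert a s ha ih => rw [Finset.prod_insert ha, Finset.sum_insert ha, cls_mul, ih]

/-- the class homomorphism -/
def clsHom (P : Type) [TopologicalSpace P] : Additive C(P, Circle) →+ Cls P where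
  toFun f := cls f.toMul
  map_zero' := rfl
  map_add' _ _ := rfl

/-- pull back of classes under a homeomorphism -/
def clsPull (T : P ≃ₜ P) : Cls P ≃+ Cls P := by
  refine MulEquiv.toAdditive (QuotientGroup.congr (expSub P) (expSub P)
    { toFun := fun f => f.comp (T : C(P, P))
      invFun := fun f => f.comp (T.symm : C(P, P))
      left_inv := fun f => by ext p; simp
      right_inv := fun f => by ext p; simp
      map_mul' := fun f g => rfl } ?_)
  ext f
  constructor
  · rintro ⟨g, hg, rfl⟩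
    exact IsExp.comp hg _
  · intro hf
    refine ⟨f.comp (T.symm : C(P, P)), IsExp.comp hf _, ?_⟩
    ext p
    simp

theorem clsPull_cls (T : P ≃ₜ P) (f : C(P, Circle)) :
    clsPull T (cls f) = cls (f.comp (T : C(P, P))) := rfl

/-- a function on circle-valued functions which is additive and kills functions with a
logarithm -/
def clsLift {A : Type} [AddCommGroup A] (w : C(P, Circle) → A)
    (h1 : ∀ f g, w (f * g) = w f + w g) (h2 : ∀ f, IsExp f → w f = 0) : Cls P →+ A :=
  MonoidHom.toAdditiveLeft (QuotientGroup.lift (expSub P)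
    { toFun := fun f => Multiplicative.ofAdd (w f)
      map_one' := by
        have : w 1 = 0 := h2 1 isExp_one
        rw [this]
        rfl
      map_mul' := fun f g => by
        rw [h1]
        rfl } fun f hf => by
      change Multiplicative.ofAdd (w f) = 1
      rw [h2 f hf]
      rfl)

theorem clsLift_cls {A : Type} [AddCommGroup A] (w : C(P, Circle) → A)
    (h1 : ∀ f g, w (f * g) = w f + w g) (h2 : ∀ f, IsExp f → w f = 0) (f : C(P, Circle)) :
    clsLift w h1 h2 (cls f) = w f := rfl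

end Group

/-! ### the decomposition -/

section Decomp

variable {P : Type} [TopologicalSpace P] {X : Type} [TopologicalSpace X]

/-- the classes which extend over `U` -/
def extSub {K U : Set X} (e : P ≃ₜ K) (hKU : K ⊆ U) : AddSubgroup (Cls P) where
  carrier := {x | ∃ A : C(U, Circle), cls (A.comp (intoC e hKU)) = x}
  zero_mem' := ⟨1, rfl⟩
  add_mem' := by
    rintro _ _ ⟨A, rfl⟩ ⟨B, rfl⟩
    exact ⟨A * B, rfl⟩
  neg_mem' := by
    rintro _ ⟨A, rfl⟩
    exact ⟨A⁻¹, rfl⟩

theorem mem_extSub {K U : Set X} {e : P ≃ₜ K} {hKU : K ⊆ U} {x : Cls P} :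
    x ∈ extSub e hKU ↔ ∃ A : C(U, Circle), cls (A.comp (intoC e hKU)) = x := Iff.rfl

theorem isCompl_ext (hC : CSplitStatement) {K U V : Set XT} (hU : IsClosed U) (hV : IsClosed V)
    (hUV : U ∪ V = univ) (hK : U ∩ V = K) (e : P ≃ₜ K) (hKU : K ⊆ U) (hKV : K ⊆ V) :
    IsCompl (extSub e hKU) (extSub e hKV) := by
  have hKc : IsClosed K := hK ▸ hU.inter hV
  constructor
  · rw [disjoint_iff, eq_bot_iff]
    rintro x ⟨⟨A, rfl⟩, ⟨B, hB⟩⟩
    rw [cls_eq] at hB
    obtain ⟨u, hu⟩ := hB.eq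
    obtain ⟨u', hu'⟩ := exists_real_ext hKc e u
    -- `B = A * exp u` on `K`
    obtain ⟨F, hF1, hF2⟩ := exists_glue hU hV hUV (A * expC (u'.comp (valC U))) B (by
      intro x hx hx'
      have hxK : x ∈ K := hK ▸ ⟨hx, hx'⟩
      obtain ⟨p, hp⟩ := e.surjective ⟨x, hxK⟩
      have h1 := DFunLike.congr_fun hu p
      have h2 := DFunLike.congr_fun hu' p
      have hpv : ((e p : K) : XT) = x := congrArg Subtype.val hp
      have h3 : (intoC e hKU) p = ⟨x, hx⟩ := Subtype.ext hpv
      have h4 : (intoC e hKV) p = ⟨x, hx'⟩ := Subtype.ext hpv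
      have h5 : (outC e) p = x := hpv
      rw [ContinuousMap.mul_apply, ContinuousMap.inv_apply, ContinuousMap.comp_apply,
        ContinuousMap.comp_apply, h3, h4, mul_inv_eq_iff_eq_mul] at h1
      rw [ContinuousMap.comp_apply, h5] at h2
      rw [ContinuousMap.mul_apply, h1, expC_apply, expC_apply, ContinuousMap.comp_apply]
      change _ * Circle.exp (u' x) = _
      rw [h2, mul_comm])
    have hFe : IsExp F := hC.simple F
    have h6 : F.comp (valC U) = A * expC (u'.comp (valC U)) := ContinuousMap.ext hF1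
    have h7 : IsExp A := by
      have h8 : A = F.comp (valC U) * (expC (u'.comp (valC U)))⁻¹ := by
        rw [h6]
        ext x
        simp
      rw [h8]
      exact (hFe.comp _).mul (isExp_expC _).inv
    change _ = _
    rw [cls_eq_zero]
    exact h7.comp _
  · rw [codisjoint_iff, eq_top_iff]
    intro x _
    obtain ⟨f, rfl⟩ := cls_surj x
    have hKe : ∀ x, x ∈ U ∩ V → x ∈ K := fun x hx => hK ▸ hx
    obtain ⟨A, B, hAB⟩ := hC.split U V hU hV hUV
      ((f.comp (e.symm : C(K, P))).comp (inclC (A := U ∩ V) (B := K) hKe))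
    rw [AddSubgroup.mem_sup]
    refine ⟨cls (A.comp (intoC e hKU)), ⟨A, rfl⟩, cls (B.comp (intoC e hKV)), ⟨B, rfl⟩, ?_⟩
    rw [← cls_mul]
    congr 1
    ext p
    have h1 := hAB (e p) ⟨hKU (e p).2, hKV (e p).2⟩
    have h2 : (e.symm (⟨e p, (e p).2⟩ : K)) = p := e.symm_apply_apply p
    have h3 : ((f.comp (e.symm : C(K, P))).comp (inclC (A := U ∩ V) (B := K) hKe))
        ⟨(e p : XT), ⟨hKU (e p).2, hKV (e p).2⟩⟩ = f (e.symm (⟨e p, (e p).2⟩ : K)) := rfl
    rw [h3, h2] at h1
    rw [h1]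
    rfl

theorem ext_invariant {K U : Set X} (e : P ≃ₜ K) (hKU : K ⊆ U) (T : P ≃ₜ P) (τ : X ≃ₜ X)
    (h : ∀ p, ((e (T (T p)) : K) : X) = τ (e p)) (hτ : ∀ x ∈ U, τ x ∈ U) :
    ∀ x ∈ extSub e hKU, clsPull T (clsPull T x) ∈ extSub e hKU := by
  rintro _ ⟨A, rfl⟩
  refine ⟨A.comp ⟨fun x : U => ⟨τ x, hτ x x.2⟩, by fun_prop⟩, ?_⟩
  rw [clsPull_cls, clsPull_cls]
  congr 1
  ext p
  change ((A ⟨τ (e p), _⟩ : Circle) : ℂ) = ((A ⟨e (T (T p)), _⟩ : Circle) : ℂ)
  congr 2
  exact Subtype.ext (h p).symm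

theorem ext_dichotomy (hA : AlgStatement) {T : P ≃ₜ P} {ℓ : C(P, ℝ)} (G : GFacts P T ℓ)
    {M M' : AddSubgroup (Cls P)} (hM : IsCompl M M')
    (h1 : ∀ x ∈ M, clsPull T (clsPull T x) ∈ M) (h2 : ∀ x ∈ M', clsPull T (clsPull T x) ∈ M') :
    M = ⊤ ∨ M' = ⊤ := by
  have := G.conn
  refine hA (Cls P) (clsPull T) (clsLift G.w (fun f g => funext (G.w_mul f g))
    (fun f hf => funext (G.w_exp f hf))) (fun j => cls (G.α j)) G.c G.c_ne ?_ ?_ ?_ ?_ ?_ ?_ ?_ ?_ ?_
    ?_ ?_ M M' hM h1 h2
  · intro n x hn hx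
    obtain ⟨f, rfl⟩ := cls_surj x
    rw [← cls_zpow, cls_eq_zero] at hx
    rw [cls_eq_zero]
    exact hx.of_zpow hn
  · intro x j
    obtain ⟨f, rfl⟩ := cls_surj x
    rw [clsPull_cls, clsLift_cls, clsLift_cls]
    exact G.w_T f j
  · intro x j
    obtain ⟨f, rfl⟩ := cls_surj x
    rw [clsLift_cls]
    exact G.w_three f j
  · intro x
    obtain ⟨f, rfl⟩ := cls_surj x
    rw [clsLift_cls]
    exact G.w_two f
  · intro i
    rw [clsLift_cls]
    exact funext (G.w_α i)
  · intro j
    rw [clsPull_cls, cls_eq]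
    exact G.α_T j
  · intro j
    rw [← cls_mul, cls_eq_zero]
    exact G.α_three j
  · rw [← cls_mul, ← cls_mul, cls_eq_zero]
    exact G.α_two
  · intro x hx
    obtain ⟨f, rfl⟩ := cls_surj x
    rw [clsLift_cls] at hx
    obtain ⟨a, b, hab⟩ := G.gen f (fun j => congrFun hx j)
    refine ⟨a, b, ?_⟩
    rw [← cls_zpow, ← cls_zpow, ← cls_mul, cls_eq]
    exact hab
  · intro a b hab
    rw [← cls_zpow, ← cls_zpow, ← cls_mul, cls_eq_zero] at hab
    exact G.indep a b hab
  · intro x
    obtain ⟨f, rfl⟩ := cls_surj x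
    have h6 := G.six f
    have h7 : (∑ j : ZMod 6, (G.c * (clsLift G.w (fun f g => funext (G.w_mul f g))
        (fun f hf => funext (G.w_exp f hf)) (cls f)) j) • cls (G.α j)) =
        cls (∏ j : ZMod 6, G.α j ^ (G.c * G.w f j)) := by
      rw [cls_prod]
      rfl
    rw [h7, ← cls_mul]
    simp only [clsPull_cls]
    rw [cls_eq]
    have h8 : ((T ^ 6 : P ≃ₜ P) : C(P, P)) = (T : C(P, P)).comp ((T : C(P, P)).comp
        ((T : C(P, P)).comp ((T : C(P, P)).comp ((T : C(P, P)).comp (T : C(P, P)))))) := by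
      ext p
      rfl
    have h9 : (((((((f.comp (T : C(P, P))).comp (T : C(P, P))).comp (T : C(P, P))).comp
      (T : C(P, P))).comp (T : C(P, P))).comp (T : C(P, P)))) =
        f.comp ((T ^ 6 : P ≃ₜ P) : C(P, P)) := by
      rw [h8]
      rfl
    rw [h9, mul_inv, ← mul_assoc]
    exact h6

/-- no side over which everything extends -/
theorem no_full (hB : BrouStatement) {K U V : Set XT} (hU : IsClosed U) (hV : IsClosed V)
    (hUV : U ∪ V = univ) (hK : U ∩ V = K) (hK1 : K ⊆ closure (U \ K)) (hK2 : K ⊆ closure (V \ K))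
    (e : P ≃ₜ K) (hKU : K ⊆ U) {T : P ≃ₜ P} {ℓ : C(P, ℝ)} (G : GFacts P T ℓ) {ε C : ℝ}
    (hε : ε = 1 ∨ ε = -1) (he : ∀ p, |((e p : K) : XT).1 - ε * ℓ p| ≤ C) :
    extSub e hKU ≠ ⊤ := by
  intro htop
  have hKc : IsClosed K := hK ▸ hU.inter hV
  have key : ∀ f : C(P, Circle), ∃ A : C(U, Circle), A.comp (intoC e hKU) = f := by
    intro f
    have : cls f ∈ extSub e hKU := htop ▸ AddSubgroup.mem_top _
    obtain ⟨A, hA⟩ := this
    exact exists_exact_ext hKc hKU e f A (cls_eq.1 hA.symm)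
  obtain ⟨A, hA⟩ := key (G.α 0)
  obtain ⟨B, hB'⟩ := key G.β
  refine hB P K U V hU hV hUV hK hK1 hK2 e ℓ (G.α 0) G.β ε C hε he G.homeo A B ?_ ?_
  · intro p h
    exact DFunLike.congr_fun hA p
  · intro p h
    exact DFunLike.congr_fun hB' p

end Decomp

/-- the non-embedding theorem, from the modules -/
theorem noEmb_of (hF : FunctStatement) (hW : WindStatement) (hPhi : PhiStatement)
    (hG : GFactsStatement) (hA : AlgStatement) (hSep : SepStatement) (hFlat : FlatStatement)
    (hC : CSplitStatement) (hB : BrouStatement)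
    (Y : Type) [TopologicalSpace Y] [CompactSpace Y] [ChartedSpace (ModelProd (Eu 1) (Eu 2)) Y]
    (D : Glued 0 Y) (ι : C(Y, Circle × Sn 3))
    (hι : Manifold.IsSmoothEmbedding ((𝓡 1).prod (𝓡 2)) ((𝓡 1).prod (𝓡 3)) ∞ ι) :
    ¬ Function.Surjective (Hm 1 ι) := by
  intro hs
  obtain ⟨φ, hφ2, hφ3⟩ := hPhi 0 Y D
  obtain ⟨G⟩ := hG Y D φ hφ2 hφ3
  have := G.conn
  obtain ⟨n, v, hnv⟩ := desc G ((⟨Prod.fst, continuous_fst⟩ : C(Circle × Sn 3, Circle)).comp ι)
  have hnv : ∀ y, (ι y).1 = φ y ^ n * Circle.exp (v y) := hnv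
  have hn := n_unit hF hW hs hnv
  obtain ⟨e, he⟩ := exists_homeo hι.isEmbedding hn hnv
  obtain ⟨hKc, hKf⟩ := hFlat Y ι hι
  obtain ⟨U, V, hU, hV, hUV, hK, hK1, hK2, hT⟩ := hSep _ hKc hKf
  have hKU : covX ⁻¹' range ι ⊆ U := by
    rw [← hK]
    exact inter_subset_left
  have hKV : covX ⁻¹' range ι ⊆ V := by
    rw [← hK]
    exact inter_subset_right
  have hTK : trX n '' (covX ⁻¹' range ι) = covX ⁻¹' range ι := by
    ext x
    constructor
    · rintro ⟨y, hy, rfl⟩
      change covX (trX n y) ∈ range ι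
      rw [covX_trX]
      exact hy
    · intro hx
      refine ⟨(trX n).symm x, ?_, (trX n).apply_symm_apply x⟩
      change covX ((trX n).symm x) ∈ range ι
      rw [← covX_trX n, (trX n).apply_symm_apply]
      exact hx
  have hinv : (∀ x ∈ U, trX n (trX n x) ∈ U) ∧ ∀ x ∈ V, trX n (trX n x) ∈ V := by
    rcases hT (trX n) hTK with ⟨h1, h2⟩ | ⟨h1, h2⟩
    · have h3 : ∀ x ∈ U, trX n x ∈ U := fun x hx => by
        rw [← h1]
        exact mem_image_of_mem _ hx
      have h4 : ∀ x ∈ V, trX n x ∈ V := fun x hx => by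
        rw [← h2]
        exact mem_image_of_mem _ hx
      exact ⟨fun x hx => h3 _ (h3 x hx), fun x hx => h4 _ (h4 x hx)⟩
    · have h3 : ∀ x ∈ U, trX n x ∈ V := fun x hx => by
        rw [← h1]
        exact mem_image_of_mem _ hx
      have h4 : ∀ x ∈ V, trX n x ∈ U := fun x hx => by
        rw [← h2]
        exact mem_image_of_mem _ hx
      exact ⟨fun x hx => h4 _ (h3 x hx), fun x hx => h3 _ (h4 x hx)⟩
  have heT : ∀ p, ((e (deck φ (deck φ p)) : (covX ⁻¹' range ι : Set XT)) : XT) =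
      ((trX n).trans (trX n)) (e p) := by
    intro p
    rw [he]
    change _ = trX n (trX n (e p : (covX ⁻¹' range ι : Set XT)))
    rw [he, trX_apply, trX_apply]
    refine Prod.ext ?_ rfl
    change (n : ℝ) * (p.1.2 + 1 + 1) + v p.1.1 / (2 * Real.pi) =
      (n : ℝ) * p.1.2 + v p.1.1 / (2 * Real.pi) + n + n
    ring
  have hcompl := isCompl_ext hC hU hV hUV hK e hKU hKV
  have hd := ext_dichotomy hA G hcompl
    (ext_invariant e hKU (deck φ) _ heT hinv.1) (ext_invariant e hKV (deck φ) _ heT hinv.2)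
  obtain ⟨C, hC'⟩ : ∃ C : ℝ, ∀ y, |v y / (2 * Real.pi)| ≤ C := by
    have h1 : Continuous fun y => |v y / (2 * Real.pi)| := by fun_prop
    obtain ⟨C, hC⟩ := (isCompact_range h1).bddAbove
    exact ⟨C, fun y => hC (mem_range_self y)⟩
  have hε : (n : ℝ) = 1 ∨ (n : ℝ) = -1 := by
    rcases hn with rfl | rfl
    · left
      simp
    · right
      simp
  have hb : ∀ p, |((e p : (covX ⁻¹' range ι : Set XT)) : XT).1 - (n : ℝ) * height φ p| ≤ C := by
    intro p
    rw [he]
    change |(n : ℝ) * p.1.2 + v p.1.1 / (2 * Real.pi) - n * p.1.2| ≤ C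
    rw [add_sub_cancel_left]
    exact hC' _
  rcases hd with h | h
  · exact no_full hB hU hV hUV hK hK1 hK2 e hKU G hε hb h
  · exact no_full hB hV hU (by rw [union_comm]; exact hUV) (by rw [inter_comm]; exact hK) hK2 hK1 e
      hKV G hε hb h

end Pool.Agent.S1S3.H83
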